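import Pool.Agent.W5h29.IN.Count
import Pool.Agent.W5h29.LU.Fin
set_option autoImplicit false

/-!
The exceptional members of the families with bounded directions: finitely many up to integral affine
changes of the coordinates.
-/

namespace Pool.Agent.W5h29.IN

open Pool.Agent.W5h29.LA (Dat)

open Pool.Agent.W5h29.LA.Dat

open Pool.Agent.W5h29.LU (Equi one_le_abs_of_int)

open Pool.Agent.W5h29.PC (ksize)

/-- integers of absolute value at most `B` -/
def bd (B : ℤ) : Set ℚ := {x | ∃ n : ℤ, x = n ∧ |n| ≤ B}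

theorem bd_finite (B : ℤ) : (bd B).Finite := by
  have h : bd B ⊆ (fun n : ℤ => (n : ℚ)) '' Set.Icc (-B) B := by
    rintro x ⟨n, rfl, hn⟩
    exact ⟨n, Set.mem_Icc.2 (abs_le.1 hn), rfl⟩
  exact ((Set.finite_Icc _ _).image _).subset h

/-- the data with entries in a finite set -/
def box (N : ℕ) (B : ℤ) : Set (Dat ℚ N) :=
  {D | (∀ p, D.al p ∈ bd B) ∧ (∀ p, D.be p ∈ bd B) ∧ (∀ p, D.ga p ∈ bd B) ∧ D.lam ∈ bd B}

theorem box_finite (N : ℕ) (B : ℤ) : (box N B).Finite := by
  set φ : Dat ℚ N → (Fin N → ℚ) × (Fin N → ℚ) × (Fin N → ℚ) × ℚ :=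
    fun D => (D.al, D.be, D.ga, D.lam) with hφ
  have hinj : Function.Injective φ := by
    rintro ⟨a, b, c, l⟩ ⟨a', b', c', l'⟩ h
    simp only [hφ, Prod.mk.injEq] at h
    obtain ⟨rfl, rfl, rfl, rfl⟩ := h
    rfl
  have hpi : (Set.pi Set.univ fun _ : Fin N => bd B).Finite := Set.Finite.pi fun _ => bd_finite B
  have hfin := (hpi.prod (hpi.prod (hpi.prod (bd_finite B)))).preimage hinj.injOn
  refine hfin.subset ?_
  rintro D ⟨h1, h2, h3, h4⟩
  refine Set.mem_prod.2 ⟨fun p _ => h1 p, Set.mem_prod.2 ⟨fun p _ => h2 p,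
    Set.mem_prod.2 ⟨fun p _ => h3 p, h4⟩⟩⟩

/-- the exceptional data -/
def exc (B : ℤ) : Set (Σ N, Dat ℚ N) := ⋃ N ∈ {N : ℕ | N < 100}, Sigma.mk N '' box N B

theorem exc_finite (B : ℤ) : (exc B).Finite := by
  unfold exc
  exact (Set.finite_lt_nat 100).biUnion fun N _ => (box_finite N B).image _

variable {N : ℕ} {D : Dat ℚ N}

/-- the normal form -/
theorem exists_nf (hA : Arr D) {M C : ℕ} {p q : Fin N} (hd : D.det2 p q ≠ 0)
    (hM : ∀ x y, |D.det2 x y| ≤ M) (hs : ksize D p q < C) :
    ∃ D' ∈ box N (M + M * M + C), Equi D D' := by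
  classical
  obtain ⟨u, w, huw⟩ := hA.prim p
  choose α hα using hA.al
  choose β hβ using hA.be
  choose γ hγ using hA.ga
  obtain ⟨l, hl⟩ := hA.lam
  obtain ⟨X, Y, hX, hY⟩ := hA.node p q hd
  have huw' : α p * u + β p * w = 1 := by
    rw [hα, hβ] at huw
    exact_mod_cast huw
  have hX' : α p * X + β p * Y + γ p = 0 := by
    rw [hα, hβ, hγ] at hX
    exact_mod_cast hX
  have hY' : α q * X + β q * Y + γ q = 0 := by
    rw [hα, hβ, hγ] at hY
    exact_mod_cast hY
  -- integral determinants
  set e : Fin N → Fin N → ℤ := fun x y => α x * β y - α y * β x with he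
  have hdet : ∀ x y, D.det2 x y = ((e x y : ℤ) : ℚ) := by
    intro x y
    unfold Dat.det2
    rw [hα, hα, hβ, hβ, he]
    push_cast
    ring
  have heM : ∀ x y, |e x y| ≤ M := by
    intro x y
    have h1 := hM x y
    rw [hdet, ← Int.cast_abs] at h1
    exact_mod_cast h1
  have hepq : e p q ≠ 0 := by
    intro h
    apply hd
    rw [hdet, h, Int.cast_zero]
  set b₀ : ℤ := u * α q + w * β q with hb₀
  set t : ℤ := -(b₀ / e p q) with ht
  set a : ℤ := w + t * α p with ha
  set b : ℤ := -u + t * β p with hb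
  have hab : a * β p - b * α p = 1 := by
    rw [ha, hb]
    linear_combination huw'
  -- the new coefficients
  set B : Fin N → ℤ := fun x => a * β x - b * α x with hB
  set n : Fin N → ℤ := fun x => α x * X + β x * Y + γ x with hn
  have hBq : |B q| ≤ M := by
    have h1 : B q = b₀ % e p q := by
      have h2 : B q = b₀ + t * e p q := by
        simp only [hB, ha, hb, hb₀, he]
        ring
      rw [h2, ht, Int.emod_def]
      ring
    rw [h1, abs_of_nonneg (Int.emod_nonneg _ hepq)]
    exact (Int.emod_lt_abs _ hepq).le.trans (heM p q)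
  have hrel : ∀ x, e q p * B x = e q x + e x p * B q := by
    intro x
    simp only [hB, he]
    linear_combination (α q * β x - α x * β q) * hab
  have hBx : ∀ x, |B x| ≤ M + M * M := by
    intro x
    have h1 : |B x| ≤ |e q p| * |B x| := by
      have h2 : 1 ≤ |e q p| := by
        have h3 : e q p = -e p q := by
          simp only [he]
          ring
        rw [h3, abs_neg]
        exact Int.one_le_abs hepq
      exact le_mul_of_one_le_left (abs_nonneg _) h2
    rw [← abs_mul, hrel] at h1
    refine h1.trans ((abs_add_le _ _).trans ?_)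
    rw [abs_mul]
    have h2 : |e x p| * |B q| ≤ M * M := mul_le_mul (heM x p) hBq (abs_nonneg _) (by positivity)
    have h3 := heM q x
    linarith
  -- the values at the node
  have hd0 : (0 : ℚ) < |D.det2 p q| := abs_pos.2 hd
  have hnv : ∀ x, D.det3 p q x = D.det2 p q * ((n x : ℤ) : ℚ) := by
    intro x
    unfold Dat.det3
    rw [hdet, hdet, hdet, hγ, hγ, hγ]
    have h1 : γ p * e q x + γ q * e x p + γ x * e p q = e p q * n x := by
      simp only [he, hn]
      linear_combination (α q * β x - α x * β q) * hX' + (α x * β p - α p * β x) * hY'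
    exact_mod_cast h1
  have hge : ∀ x ∈ oth p q, 1 ≤ |D.det3 p q x| / |D.det2 p q| := fun x hx => ratio_ge hA hd hx
  have hprod1 : ∀ s : Finset (Fin N), s ⊆ oth p q →
      1 ≤ ∏ x ∈ s, (|D.det3 p q x| / |D.det2 p q|) := by
    intro s hs
    have h1 : ∏ x ∈ s, (1 : ℚ) ≤ ∏ x ∈ s, (|D.det3 p q x| / |D.det2 p q|) :=
      Finset.prod_le_prod (fun _ _ => zero_le_one) fun x hx => hge x (hs hx)
    rwa [Finset.prod_const_one] at h1
  have hlam := lam_ge hA
  have hP := hprod1 _ (Finset.Subset.refl _)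
  have hs' : |D.lam| * ∏ x ∈ oth p q, (|D.det3 p q x| / |D.det2 p q|) < C := hs
  have hlb : |D.lam| < C := by
    refine lt_of_le_of_lt ?_ hs'
    exact le_mul_of_one_le_right (abs_nonneg _) hP
  have hPb : ∏ x ∈ oth p q, (|D.det3 p q x| / |D.det2 p q|) < C := by
    refine lt_of_le_of_lt ?_ hs'
    exact le_mul_of_one_le_left (by linarith) hlam
  have hnx : ∀ x, |n x| ≤ C := by
    intro x
    by_cases hx : x ∈ oth p q
    · have h1 : |D.det3 p q x| / |D.det2 p q| ≤ ∏ x ∈ oth p q, (|D.det3 p q x| / |D.det2 p q|) := by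
        rw [← Finset.mul_prod_erase _ _ hx]
        refine le_mul_of_one_le_right ?_ (hprod1 _ (Finset.erase_subset _ _))
        positivity
      have h2 : |D.det3 p q x| / |D.det2 p q| = ((|n x| : ℤ) : ℚ) := by
        rw [hnv, abs_mul, mul_comm, mul_div_assoc, div_self hd0.ne', mul_one, Int.cast_abs]
      rw [h2] at h1
      have h3 : ((|n x| : ℤ) : ℚ) ≤ C := h1.trans hPb.le
      exact_mod_cast h3
    · have h0 : n x = 0 := by
        rw [mem_oth, not_and_or, not_not, not_not] at hx
        rcases hx with rfl | rfl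
        · exact hX'
        · exact hY'
      rw [h0, abs_zero]
      positivity
  have hlC : |l| ≤ C := by
    rw [hl, ← Int.cast_abs] at hlb
    exact_mod_cast hlb.le
  have hMM : (0 : ℤ) ≤ (M : ℤ) * M := by positivity
  have hM0 : (0 : ℤ) ≤ M := by positivity
  have hC0 : (0 : ℤ) ≤ C := by positivity
  refine ⟨⟨fun x => ((e x p : ℤ) : ℚ), fun x => ((B x : ℤ) : ℚ), fun x => ((n x : ℤ) : ℚ),
    ((l : ℤ) : ℚ)⟩, ⟨fun x => ⟨_, rfl, ?_⟩, fun x => ⟨_, rfl, ?_⟩, fun x => ⟨_, rfl, ?_⟩,
      ⟨_, rfl, ?_⟩⟩, ?_⟩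
  · have := heM x p
    linarith
  · have := hBx x
    linarith
  · have := hnx x
    linarith
  · linarith
  · refine ⟨a, b, α p, β p, -(a * X + b * Y), γ p, Or.inl (by linear_combination hab), ?_, fun x => ?_⟩
    · exact hl.symm
    · simp only
      rw [hα, hβ, hγ]
      refine ⟨?_, ?_, ?_⟩
      · have h1 : α x = e x p * a + B x * α p := by
          simp only [he, hB]
          linear_combination (-(α x)) * hab
        exact_mod_cast h1
      · have h1 : β x = e x p * b + B x * β p := by
          simp only [he, hB]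
          linear_combination (-(β x)) * hab
        exact_mod_cast h1
      · have h1 : γ x = e x p * (-(a * X + b * Y)) + B x * γ p + n x := by
          simp only [he, hB, hn]
          linear_combination (-(a * β x - b * α x)) * hX' + (α x * X + β x * Y) * hab
        exact_mod_cast h1

end Pool.Agent.W5h29.IN
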