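import Pool.Agent.W5h29.IN.Main
set_option autoImplicit false

/-!
Every arrangement of lines over `ℚ` in general position has integral nodes after a change of the scale.
-/

namespace Pool.Agent.W5h29.IN

open Pool.Agent.W5h29.LA (Dat)

open Pool.Agent.W5h29.LA.Dat

open Pool.Agent.W5h29.LU (one_le_abs_of_int)

open Pool.Agent.W5h29.PC (ksize)

variable {N : ℕ}

/-- The lines `α_p x + β_p y + M γ_p`, and the number `λ`. -/
def scaled (α β : Fin N → ℤ) (γ : Fin N → ℚ) (M l : ℤ) : Dat ℚ N where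
  al p := (α p : ℚ)
  be p := (β p : ℚ)
  ga p := (M : ℚ) * γ p
  lam := (l : ℚ)

theorem exists_scale (hN : 3 ≤ N) (α β : Fin N → ℤ) (γ : Fin N → ℚ)
    (hprim : ∀ p, IsCoprime (α p) (β p))
    (hdir : ∀ p, ∃ q, (scaled α β γ 1 1).det2 p q ≠ 0) (hgen : (scaled α β γ 1 1).Generic) {C : ℤ}
    (hC : 1 ≤ C) :
    ∃ M₀ : ℤ, 0 < M₀ ∧ ∀ M l : ℤ, M ≠ 0 → M₀ ∣ M → l ≠ 0 → Arr (scaled α β γ M l) ∧
      ∀ p q, (scaled α β γ M l).det2 p q ≠ 0 → (C : ℚ) ≤ ksize (scaled α β γ M l) p q := by
  classical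
  set e : Fin N → Fin N → ℤ := fun p q => α p * β q - α q * β p with he
  have hdet : ∀ M l p q, (scaled α β γ M l).det2 p q = ((e p q : ℤ) : ℚ) := by
    intro M l p q
    unfold Dat.det2 scaled
    simp only [he]
    push_cast
    ring
  -- the product of the determinants
  set P : ℤ := ∏ p, ∏ q, (if e p q = 0 then 1 else |e p q|) with hP
  have hfac : ∀ p q, 1 ≤ (if e p q = 0 then 1 else |e p q|) := by
    intro p q
    split_ifs with h
    · exact le_refl _
    · exact Int.one_le_abs h
  have hP1 : 1 ≤ P := by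
    refine Int.add_one_le_iff.2 (Finset.prod_pos fun p _ => Finset.prod_pos fun q _ => ?_)
    have := hfac p q
    omega
  have hdvd : ∀ p q, e p q ≠ 0 → e p q ∣ P := by
    intro p q h
    refine dvd_trans ?_ (Finset.dvd_prod_of_mem _ (Finset.mem_univ p))
    refine dvd_trans ?_ (Finset.dvd_prod_of_mem _ (Finset.mem_univ q))
    rw [if_neg h]
    exact (dvd_abs _ _).2 dvd_rfl
  have hle : ∀ p q, |e p q| ≤ P := by
    intro p q
    by_cases h : e p q = 0
    · rw [h, abs_zero]
      omega
    · exact Int.le_of_dvd (by omega) ((abs_dvd _ _).2 (hdvd p q h))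
  -- the denominators
  set g : ℤ := ∏ p, ((γ p).den : ℤ) with hg
  have hg1 : 1 ≤ g := by
    refine Int.add_one_le_iff.2 (Finset.prod_pos fun p _ => ?_)
    exact_mod_cast (γ p).den_pos
  have hgγ : ∀ p, ∃ n : ℤ, (g : ℚ) * γ p = n := by
    intro p
    obtain ⟨k, hk⟩ : ((γ p).den : ℤ) ∣ g := Finset.dvd_prod_of_mem _ (Finset.mem_univ p)
    refine ⟨k * (γ p).num, ?_⟩
    have h1 : (((γ p).den : ℤ) : ℚ) * γ p = (γ p).num := by
      have := Rat.den_mul_eq_num (γ p)
      exact_mod_cast this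
    rw [hk]
    push_cast at h1 ⊢
    linear_combination (k : ℚ) * h1
  choose n hn using hgγ
  have hgQ : (g : ℚ) ≠ 0 := by
    have : g ≠ 0 := by omega
    exact_mod_cast this
  refine ⟨g * (P ^ 3 * C), by positivity, fun M l hM hdM hl => ?_⟩
  obtain ⟨m, rfl⟩ := hdM
  have hm : m ≠ 0 := by
    rintro rfl
    apply hM
    ring
  have hm1 : 1 ≤ |m| := Int.one_le_abs hm
  set M : ℤ := g * (P ^ 3 * C) * m with hMdef
  -- the determinants of three lines
  set h : Fin N → Fin N → Fin N → ℤ := fun p q a => n p * e q a + n q * e a p + n a * e p q with hh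
  have hdet3 : ∀ p q a, (scaled α β γ M l).det3 p q a = ((P ^ 3 * C * m * h p q a : ℤ) : ℚ) := by
    intro p q a
    unfold Dat.det3
    rw [hdet, hdet, hdet]
    simp only [scaled, hh, hMdef]
    push_cast
    rw [← hn, ← hn, ← hn]
    ring
  have hdet3' : ∀ p q a, (g : ℚ) * (scaled α β γ 1 1).det3 p q a = ((h p q a : ℤ) : ℚ) := by
    intro p q a
    unfold Dat.det3
    rw [hdet, hdet, hdet]
    simp only [scaled, hh]
    push_cast
    rw [← hn, ← hn, ← hn]
    ring
  have hne : ∀ p q a, e p q ≠ 0 → a ≠ p → a ≠ q → h p q a ≠ 0 := by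
    intro p q a h1 h2 h3 h4
    have h5 := hdet3' p q a
    rw [h4, Int.cast_zero] at h5
    have h6 := (mul_eq_zero.1 h5).resolve_left hgQ
    refine hgen p q a ?_ h2 h3 h6
    rw [hdet]
    exact_mod_cast h1
  have hP3 : 1 ≤ P ^ 3 := one_le_pow₀ hP1
  have hbig : ∀ p q a, e p q ≠ 0 → a ≠ p → a ≠ q →
      P ^ 3 * C ≤ |P ^ 3 * C * m * h p q a| := by
    intro p q a h1 h2 h3
    have h4 : 1 ≤ |h p q a| := Int.one_le_abs (hne p q a h1 h2 h3)
    have h5 : 0 ≤ P ^ 3 * C := by positivity
    rw [mul_assoc, abs_mul, abs_of_nonneg h5, abs_mul]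
    refine le_mul_of_one_le_right h5 ?_
    have h6 : 1 * 1 ≤ |m| * |h p q a| := mul_le_mul hm1 h4 zero_le_one (by omega)
    linarith
  have hA : Arr (scaled α β γ M l) := by
    refine ⟨fun p => ⟨α p, rfl⟩, fun p => ⟨β p, rfl⟩, fun p => ⟨P ^ 3 * C * m * n p, ?_⟩, ?_,
      ⟨l, rfl⟩, ?_, ?_, ?_, ?_, ?_⟩
    · simp only [scaled, hMdef]
      push_cast
      rw [← hn]
      ring
    · intro p
      obtain ⟨u, w, huw⟩ := hprim p
      refine ⟨u, w, ?_⟩
      simp only [scaled]
      have h1 : α p * u + β p * w = 1 := by linarith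
      exact_mod_cast h1
    · simp only [scaled]
      exact_mod_cast hl
    · intro p
      obtain ⟨q, hq⟩ := hdir p
      refine ⟨q, ?_⟩
      rw [hdet] at hq ⊢
      exact hq
    · intro p q a h1 h2 h3
      rw [hdet] at h1
      rw [hdet3]
      have h1' : e p q ≠ 0 := by exact_mod_cast h1
      have h4 := hbig p q a h1' h2 h3
      have h5 : P ^ 3 * C * m * h p q a ≠ 0 := by
        intro h6
        rw [h6, abs_zero] at h4
        have : 0 < P ^ 3 * C := by positivity
        omega
      exact_mod_cast h5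
    · intro p q h1
      rw [hdet] at h1
      have h1' : e p q ≠ 0 := by exact_mod_cast h1
      obtain ⟨k, hk⟩ := hdvd p q h1'
      have hMe : ∀ r, (M : ℚ) * γ r = e p q * (k * P ^ 2 * C * m) * n r := by
        intro r
        have h2 : (P : ℚ) = e p q * k := by exact_mod_cast hk
        rw [← hn]
        simp only [hMdef]
        push_cast
        linear_combination (g * (P : ℚ) ^ 2 * C * m * γ r) * h2
      refine ⟨k * P ^ 2 * C * m * (β p * n q - β q * n p),
        k * P ^ 2 * C * m * (n p * α q - n q * α p), ?_, ?_⟩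
      · simp only [scaled]
        rw [hMe p]
        simp only [he]
        push_cast
        ring
      · simp only [scaled]
        rw [hMe q]
        simp only [he]
        push_cast
        ring
    · intro p q a h1 h2 h3
      rw [hdet] at h1 h2 h3 ⊢
      rw [hdet, hdet, hdet3]
      have h1' : e p q ≠ 0 := by exact_mod_cast h1
      have h2' : q ≠ a := by
        rintro rfl
        apply h2
        simp [he]
      have h3' : a ≠ p := by
        rintro rfl
        apply h3
        simp [he]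
      have h4 := hbig p q a h1' h3' h2'.symm
      have h5 : |e p q| * |e q a| * |e a p| ≤ P * P * P :=
        mul_le_mul (mul_le_mul (hle p q) (hle q a) (abs_nonneg _) (by omega)) (hle a p)
          (abs_nonneg _) (by positivity)
      have h6 : P ^ 3 ≤ P ^ 3 * C := le_mul_of_one_le_right (by positivity) hC
      have h7 : |e p q| * |e q a| * |e a p| ≤ |P ^ 3 * C * m * h p q a| := by
        calc |e p q| * |e q a| * |e a p| ≤ P * P * P := h5
          _ = P ^ 3 := by ring
          _ ≤ P ^ 3 * C := h6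
          _ ≤ _ := h4
      exact_mod_cast h7
  refine ⟨hA, fun p q hd => ?_⟩
  have hd' : e p q ≠ 0 := by
    rw [hdet] at hd
    exact_mod_cast hd
  have hde : (0 : ℚ) < |(scaled α β γ M l).det2 p q| := abs_pos.2 hd
  have hC0 : (1 : ℚ) ≤ C := by exact_mod_cast hC
  have h1 : ∀ a ∈ oth p q, (C : ℚ) ≤
      |(scaled α β γ M l).det3 p q a| / |(scaled α β γ M l).det2 p q| := by
    intro a ha
    rw [le_div_iff₀ hde, hdet, hdet3]
    have h4 := hbig p q a hd' (mem_oth.1 ha).1 (mem_oth.1 ha).2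
    have h5 : C * |e p q| ≤ P ^ 3 * C := by
      have h6 : |e p q| ≤ P ^ 3 := by
        refine (hle p q).trans ?_
        calc P = P * 1 := (mul_one P).symm
          _ ≤ P * P ^ 2 := mul_le_mul_of_nonneg_left (one_le_pow₀ hP1) (by omega)
          _ = P ^ 3 := by ring
      calc C * |e p q| ≤ C * P ^ 3 := mul_le_mul_of_nonneg_left h6 (by omega)
        _ = P ^ 3 * C := mul_comm _ _
    exact_mod_cast h5.trans h4
  have h2 : ∏ a ∈ oth p q, (C : ℚ) ≤ ∏ a ∈ oth p q,
      (|(scaled α β γ M l).det3 p q a| / |(scaled α β γ M l).det2 p q|) :=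
    Finset.prod_le_prod (fun _ _ => by linarith) h1
  rw [Finset.prod_const, card_oth (ne_of_det2 hd)] at h2
  have h3 : (C : ℚ) ≤ C ^ (N - 2) := le_self_pow₀ hC0 (by omega)
  refine (h3.trans h2).trans ?_
  exact le_mul_of_one_le_left (Finset.prod_nonneg fun _ _ => by positivity) (lam_ge hA)

end Pool.Agent.W5h29.IN
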