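import Pool.Agent.W5h29.IN.Main
set_option autoImplicit false

/-!
The arrangements all whose determinants `α_p β_q - α_q β_p` are `0`, `1` or `-1`.
-/

namespace Pool.Agent.W5h29.IN

open Pool.Agent.TH826.MK (KQ symb Torus symb_update_mul)

open Pool.Agent.W5h29.LA (Dat)

open Pool.Agent.W5h29.LA.Dat

open Pool.Agent.W5h29.LU (one_le_abs_of_int int_of_isIntegral size det2_cases)

open Pool.Agent.W5h29.PC (ksize bs cu)

section sym

variable {A : Type*} [CommRing A]

theorem symb_mul_right (a b b' : Aˣ) : symb ![a, b * b'] = symb ![a, b] + symb ![a, b'] := by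
  have upd : ∀ (x : Aˣ), Function.update ![a, b] 1 x = ![a, x] := by
    intro x
    funext i
    fin_cases i <;> simp
  have h := symb_update_mul ![a, b] 1 b b'
  rw [upd, upd, upd] at h
  exact h

theorem symb_one_right (a : Aˣ) : symb ![a, 1] = 0 := by
  have h := symb_mul_right a 1 1
  rw [mul_one] at h
  exact left_eq_add.1 h

theorem symb_sq_right {a b : Aˣ} (h : b * b = 1) : symb ![a, b] = 0 := by
  have h1 := symb_mul_right a b b
  rw [h, symb_one_right, ← two_smul ℚ] at h1
  exact (smul_eq_zero.1 h1.symm).resolve_left two_ne_zero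

end sym

variable {N : ℕ} {D : Dat ℚ N} {σ : ℚ →+* ℂ}

theorem bs_eq {p q : Fin N} (h : D.det2 p q = 1 ∨ D.det2 p q = -1) :
    bs D p q = symb ![D.u p, D.u q] := by
  have h0 : D.det2 p q ≠ 0 := by
    rcases h with h | h <;> rw [h] <;> norm_num
  have h2 : cu D p q * cu D p q = 1 := by
    unfold cu
    rw [dif_neg h0, ← map_mul]
    have e : Units.mk0 (D.det2 p q) h0 * Units.mk0 (D.det2 p q) h0 = 1 := by
      ext
      rw [Units.val_mul, Units.val_mk0, Units.val_one]
      rcases h with h | h <;> rw [h] <;> norm_num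
    rw [e, map_one]
  unfold bs
  rw [symb_sq_right h2, sub_zero]

theorem indep_unimodular (hD : D.Directions) (h : D.IndependentRegulators σ) :
    PC.IndependentRegulators D σ := by
  intro c hc hreg
  refine h c hc fun T hT => ?_
  rw [← hreg T hT]
  refine Finset.sum_congr rfl fun p _ => Finset.sum_congr rfl fun q _ => ?_
  rcases det2_cases hD p q with h0 | h0 | h0
  · rw [hc.2.1 p q h0, zero_mul, zero_mul]
  · rw [bs_eq (Or.inl h0)]
  · rw [bs_eq (Or.inr h0)]

theorem isIntegral_of_int {x : ℚ} (h : ∃ n : ℤ, x = n) : IsIntegral ℤ x := by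
  obtain ⟨n, rfl⟩ := h
  exact isIntegral_algebraMap (R := ℤ) (A := ℚ) (x := n)

theorem Arr.integral (hA : Arr D) : D.Integral :=
  ⟨fun p => ⟨isIntegral_of_int (hA.al p), isIntegral_of_int (hA.be p),
    isIntegral_of_int (hA.ga p)⟩, isIntegral_of_int hA.lam, hA.lam0⟩

theorem Arr.directions (hA : Arr D) (h : ∀ p q, |D.det2 p q| ≤ 1) : D.Directions := by
  refine ⟨fun p q => ?_, hA.dir⟩
  by_cases h0 : D.det2 p q = 0
  · exact Or.inl h0
  right
  have h1 : |D.det2 p q| = 1 := le_antisymm (h p q) (hA.det2_ge h0)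
  refine ⟨2, two_ne_zero, ?_⟩
  rw [← sq_abs, h1, one_pow]

/-- these arrangements have integral nodes -/
theorem arr_of_unimodular (hI : D.Integral) (hD : D.Directions) (hG : D.Generic) : Arr D where
  al p := int_of_isIntegral (hI.1 p).1
  be p := int_of_isIntegral (hI.1 p).2.1
  ga p := int_of_isIntegral (hI.1 p).2.2
  prim p := by
    obtain ⟨q, hq⟩ := hD.2 p
    obtain ⟨a, ha⟩ := int_of_isIntegral (hI.1 q).1
    obtain ⟨b, hb⟩ := int_of_isIntegral (hI.1 q).2.1
    rcases det2_cases hD p q with h | h | h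
    · exact absurd h hq
    · refine ⟨b, -a, ?_⟩
      push_cast
      rw [← ha, ← hb, ← h]
      unfold Dat.det2
      ring
    · refine ⟨-b, a, ?_⟩
      push_cast
      rw [← ha, ← hb]
      unfold Dat.det2 at h
      linear_combination (-1) * h
  lam := int_of_isIntegral hI.2.1
  lam0 := hI.2.2
  dir := hD.2
  gen := hG
  node p q hd := by
    obtain ⟨a, ha⟩ := int_of_isIntegral (hI.1 p).1
    obtain ⟨b, hb⟩ := int_of_isIntegral (hI.1 p).2.1
    obtain ⟨g, hg⟩ := int_of_isIntegral (hI.1 p).2.2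
    obtain ⟨a', ha'⟩ := int_of_isIntegral (hI.1 q).1
    obtain ⟨b', hb'⟩ := int_of_isIntegral (hI.1 q).2.1
    obtain ⟨g', hg'⟩ := int_of_isIntegral (hI.1 q).2.2
    rcases det2_cases hD p q with h | h | h
    · exact absurd h hd
    · refine ⟨b * g' - b' * g, g * a' - g' * a, ?_, ?_⟩
      · push_cast
        rw [← ha, ← hb, ← hg, ← ha', ← hb', ← hg']
        unfold Dat.det2 at h
        linear_combination (-D.ga p) * h
      · push_cast
        rw [← ha, ← hb, ← hg, ← ha', ← hb', ← hg']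
        unfold Dat.det2 at h
        linear_combination (-D.ga q) * h
    · refine ⟨-(b * g' - b' * g), -(g * a' - g' * a), ?_, ?_⟩
      · push_cast
        rw [← ha, ← hb, ← hg, ← ha', ← hb', ← hg']
        unfold Dat.det2 at h
        linear_combination (D.ga p) * h
      · push_cast
        rw [← ha, ← hb, ← hg, ← ha', ← hb', ← hg']
        unfold Dat.det2 at h
        linear_combination (D.ga q) * h
  sep p q a h1 h2 h3 := by
    have key : ∀ x y, D.det2 x y ≠ 0 → |D.det2 x y| = 1 := by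
      intro x y h
      rcases det2_cases hD x y with h' | h' | h'
      · exact absurd h' h
      · rw [h']; norm_num
      · rw [h']; norm_num
    rw [key p q h1, key q a h2, key a p h3, mul_one, mul_one]
    exact one_le_abs_of_int (LU.det3_int hI p q a)
      (hG p q a h1 (ne_of_det2 h3) (ne_of_det2 h2).symm)

theorem ksize_eq (hA : Arr D) (h : ∀ p q, |D.det2 p q| ≤ 1) {p q : Fin N} (hd : D.det2 p q ≠ 0) :
    ksize D p q = size D p q := by
  unfold ksize size
  have h1 : |D.det2 p q| = 1 := le_antisymm (h p q) (hA.det2_ge hd)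
  rw [h1]
  simp only [div_one]

/-- the explicit theorem for these arrangements -/
theorem unimodular (hA : Arr D) (hN : 3 ≤ N) (h1 : ∀ p q, |D.det2 p q| ≤ 1)
    (hL : 20 ≤ N ∨ 6400 ≤ |D.lam| ∨
      (4 ≤ |D.lam| ∧ ∀ p q, D.det2 p q ≠ 0 → 100 * (N : ℚ) ^ 2 ≤ ksize D p q) ∨
      ∀ p q, D.det2 p q ≠ 0 → 10 ^ 10 ≤ ksize D p q) :
    (∀ σ : ℚ →+* ℂ, D.Smooth σ) ∧ ∀ σ : ℚ →+* ℂ, PC.IndependentRegulators D σ := by
  have hI := hA.integral
  have hD := hA.directions h1
  have hG : D.Generic := hA.gen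
  have key : (∀ σ : ℚ →+* ℂ, D.Smooth σ) ∧ ∀ σ : ℚ →+* ℂ, D.IndependentRegulators σ := by
    by_cases h20 : 20 ≤ N
    · have hK : ∀ p q, D.det2 p q ≠ 0 → 100 * (N : ℚ) ^ 2 ≤ size D p q :=
        fun p q hd => LU.size_many hI hD hG h20 hd
      exact ⟨fun σ => LU.smooth hI hD hG (Or.inl (by omega)) (by omega) hK,
        fun σ => LU.indep_many hI hD hG h20 hK⟩
    have h4 : 4 ≤ |D.lam| → (∀ p q, D.det2 p q ≠ 0 → 100 * (N : ℚ) ^ 2 ≤ size D p q) →
        (∀ σ : ℚ →+* ℂ, D.Smooth σ) ∧ ∀ σ : ℚ →+* ℂ, D.IndependentRegulators σ := fun hl hK =>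
      ⟨fun σ => LU.smooth hI hD hG (Or.inr (Or.inl (by linarith))) (by omega) hK,
        fun σ => LU.indep_four hI hD hG hN hl hK⟩
    rcases hL with h | h | ⟨h, hK⟩ | h
    · exact absurd h h20
    · exact h4 (by linarith) fun p q hd => LU.size_lam hI hD hG hN h hd
    · exact h4 h fun p q hd => by rw [← ksize_eq hA h1 hd]; exact hK p q hd
    · have hN19 : N ≤ 19 := by omega
      have h' : ∀ p q, D.det2 p q ≠ 0 → 10 ^ 10 ≤ size D p q := fun p q hd => by
        rw [← ksize_eq hA h1 hd]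
        exact h p q hd
      refine ⟨fun σ => LU.smooth hI hD hG ?_ (by omega) ?_,
        fun σ => LU.indep_large hI hD hG hN hN19 h'⟩
      · right
        right
        intro p q hd
        refine lt_of_lt_of_le ?_ (h' p q hd)
        calc (3 : ℚ) ^ N ≤ 3 ^ 19 := pow_le_pow_right₀ (by norm_num) hN19
          _ < 10 ^ 10 := by norm_num
      · intro p q hd
        refine le_trans ?_ (h' p q hd)
        have h1 : (N : ℚ) ≤ 19 := by exact_mod_cast hN19
        have h2 : (0 : ℚ) ≤ N := Nat.cast_nonneg N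
        nlinarith
  exact ⟨key.1, fun σ => indep_unimodular hD (key.2 σ)⟩

end Pool.Agent.W5h29.IN
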