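import Pool.Agent.W5h29.LA.Unr
set_option autoImplicit false

/-!
Symbols of integers at a discrete valuation.
-/

namespace Pool.Agent.W5h29.IN

open Pool.Agent.TH826.MK (KQ symb unitPart val_le_one_of_integral)

open Pool.Agent.Y797.HC (OU)

open Pool.Agent.W5h29.LA

open scoped WithZero

variable {L : Type*} [Field L] {v : Valuation L ℤᵐ⁰}

theorem val_int_le (v : Valuation L ℤᵐ⁰) (n : ℤ) : v (n : L) ≤ 1 :=
  val_le_one_of_integral v (isIntegral_algebraMap (R := ℤ) (x := n))

/-- a prime with value less than one -/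
theorem exists_prime : ∀ n : ℕ, n ≠ 0 → v (n : L) < 1 → ∃ π : ℕ, π.Prime ∧ v (π : L) < 1 := by
  intro n
  induction n using Nat.strong_induction_on with
  | _ n ih =>
    intro hn h
    have hn1 : n ≠ 1 := by
      rintro rfl
      rw [Nat.cast_one, map_one] at h
      exact lt_irrefl _ h
    obtain ⟨m, hm⟩ := n.minFac_dvd
    have hp := Nat.minFac_prime hn1
    by_cases h1 : v (n.minFac : L) < 1
    · exact ⟨_, hp, h1⟩
    · have h2 : v (n.minFac : L) = 1 := by
        refine le_antisymm ?_ (not_lt.1 h1)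
        exact_mod_cast val_int_le v (n.minFac : ℤ)
      have hm0 : m ≠ 0 := by
        rintro rfl
        rw [mul_zero] at hm
        exact hn hm
      have hmn : m < n := by
        have h3 := hp.two_le
        have h4 : n.minFac * m = n := hm.symm
        have h5 : 0 < m := Nat.pos_of_ne_zero hm0
        nlinarith
      refine ih m hmn hm0 ?_
      have h3 : (n : L) = (n.minFac : L) * (m : L) := by
        rw [← Nat.cast_mul, ← hm]
      rwa [h3, map_mul, h2, one_mul] at h

theorem exists_prime' {d : ℤ} (hd : d ≠ 0) (h : v (d : L) < 1) :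
    ∃ π : ℕ, π.Prime ∧ v (π : L) < 1 := by
  obtain ⟨n, rfl | rfl⟩ := Int.eq_nat_or_neg d
  · refine exists_prime n (by exact_mod_cast hd) ?_
    exact_mod_cast h
  · refine exists_prime n (by
      rintro rfl
      exact hd rfl) ?_
    push_cast at h
    rwa [Valuation.map_neg] at h

theorem val_one_of_not_dvd {π : ℕ} (hp : π.Prime) (hv : v (π : L) < 1) {n : ℤ}
    (h : ¬ (π : ℤ) ∣ n) : v (n : L) = 1 := by
  have h1 : IsCoprime (π : ℤ) n := (Nat.prime_iff_prime_int.1 hp).coprime_iff_not_dvd.2 h
  obtain ⟨a, b, hab⟩ := h1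
  refine le_antisymm (val_int_le v n) ?_
  by_contra hlt
  push Not at hlt
  have h2 : v ((a : L) * (π : L) + (b : L) * (n : L)) = 1 := by
    have : (a : L) * (π : L) + (b : L) * (n : L) = 1 := by exact_mod_cast congrArg (Int.cast (R := L)) hab
    rw [this, map_one]
  have h3 : v ((a : L) * (π : L) + (b : L) * (n : L)) < 1 := by
    refine (v.map_add _ _).trans_lt (max_lt ?_ ?_)
    · rw [map_mul]
      exact (mul_le_of_le_one_left zero_le (val_int_le v a)).trans_lt hv
    · rw [map_mul]
      exact (mul_le_of_le_one_left zero_le (val_int_le v b)).trans_lt hlt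
  exact absurd h2 h3.ne

theorem not_dvd_of_val_one {π : ℕ} (hv : v (π : L) < 1) {n : ℤ} (h : v (n : L) = 1) :
    ¬ (π : ℤ) ∣ n := by
  rintro ⟨m, rfl⟩
  push_cast at h
  rw [map_mul] at h
  exact absurd h (mul_lt_one_of_lt_of_le hv (val_int_le v m)).ne

theorem OU_pow {π : ℕ} (hp : π.Prime) (hv : v (π : L) < 1) {n : ℤ} (h : v (n : L) = 1) :
    OU v ((n : L) ^ (π - 1)) := by
  have h1 : IsCoprime n (π : ℤ) :=
    ((Nat.prime_iff_prime_int.1 hp).coprime_iff_not_dvd.2 (not_dvd_of_val_one hv h)).symm
  have h2 := Int.ModEq.pow_card_sub_one_eq_one hp h1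
  obtain ⟨m, hm⟩ := h2.symm.dvd
  unfold OU
  have h3 : (n : L) ^ (π - 1) - 1 = (π : L) * (m : L) := by
    exact_mod_cast congrArg (Int.cast (R := L)) hm
  rw [h3, map_mul]
  exact mul_lt_one_of_lt_of_le hv (val_int_le v m)

theorem sub_one_ne {π : ℕ} (hp : π.Prime) : π - 1 ≠ 0 := by
  have := hp.two_le
  omega

theorem prime_mem {π : ℕ} (hp : π.Prime) (hv : v (π : L) < 1) {P : Lˣ} (hP : (P : L) = (π : L)) :
    ∀ (c : ℕ) (n : ℤ), n.natAbs = c → ∀ s : Lˣ, (s : L) = (n : L) → sy P s ∈ unitPart v 2 := by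
  intro c
  induction c using Nat.strong_induction_on with
  | _ c ih =>
    intro n hc s hs
    by_cases hd : (π : ℤ) ∣ n
    · obtain ⟨m, hm⟩ := hd
      have hn0 : n ≠ 0 := by
        rintro rfl
        apply s.ne_zero
        rw [hs, Int.cast_zero]
      have hm0 : m ≠ 0 := by
        rintro rfl
        rw [mul_zero] at hm
        exact hn0 hm
      have hmL : (m : L) ≠ 0 := by
        intro h
        apply s.ne_zero
        rw [hs, hm]
        push_cast
        rw [h, mul_zero]
      have e : s = P * Units.mk0 (m : L) hmL := by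
        apply Units.ext
        rw [hs, hm, Units.val_mul, hP, Units.val_mk0]
        push_cast
        rfl
      rw [e, sy_mul_right, sy_self, zero_add]
      refine ih m.natAbs ?_ m rfl _ rfl
      rw [← hc, hm, Int.natAbs_mul, Int.natAbs_natCast]
      have h1 := hp.two_le
      have h2 : 0 < m.natAbs := Int.natAbs_pos.2 hm0
      nlinarith
    · refine sy_mem_right (sub_one_ne hp) ?_ _
      rw [hs]
      exact OU_pow hp hv (val_one_of_not_dvd hp hv hd)

theorem cst_mem_prime {π : ℕ} (hp : π.Prime) (hv : v (π : L) < 1) {P : Lˣ} (hP : (P : L) = (π : L)) :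
    ∀ (c : ℕ) (n : ℤ), n.natAbs = c → ∀ r : Lˣ, (r : L) = (n : L) → ∀ (m : ℤ) (s : Lˣ),
      (s : L) = (m : L) → sy r s ∈ unitPart v 2 := by
  intro c
  induction c using Nat.strong_induction_on with
  | _ c ih =>
    intro n hc r hr m s hs
    by_cases hd : (π : ℤ) ∣ n
    · obtain ⟨m', hm⟩ := hd
      have hn0 : n ≠ 0 := by
        rintro rfl
        apply r.ne_zero
        rw [hr, Int.cast_zero]
      have hm0 : m' ≠ 0 := by
        rintro rfl
        rw [mul_zero] at hm
        exact hn0 hm
      have hmL : (m' : L) ≠ 0 := by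
        intro h
        apply r.ne_zero
        rw [hr, hm]
        push_cast
        rw [h, mul_zero]
      have e : r = P * Units.mk0 (m' : L) hmL := by
        apply Units.ext
        rw [hr, hm, Units.val_mul, hP, Units.val_mk0]
        push_cast
        rfl
      rw [e, sy_mul_left]
      refine Submodule.add_mem _ (prime_mem hp hv hP _ m rfl s hs) ?_
      refine ih m'.natAbs ?_ m' rfl _ rfl m s hs
      rw [← hc, hm, Int.natAbs_mul, Int.natAbs_natCast]
      have h1 := hp.two_le
      have h2 : 0 < m'.natAbs := Int.natAbs_pos.2 hm0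
      nlinarith
    · refine sy_mem_left (sub_one_ne hp) ?_ _
      rw [hr]
      exact OU_pow hp hv (val_one_of_not_dvd hp hv hd)

/-- symbols of integers are unramified -/
theorem cst_mem (v : Valuation L ℤᵐ⁰) [CharZero L] {m n : ℤ} {r s : Lˣ} (hr : (r : L) = (m : L))
    (hs : (s : L) = (n : L)) : sy r s ∈ unitPart v 2 := by
  by_cases h : ∃ d : ℤ, d ≠ 0 ∧ v (d : L) < 1
  · obtain ⟨d, hd, h1⟩ := h
    obtain ⟨π, hp, hv⟩ := exists_prime' hd h1
    have h0 : (π : L) ≠ 0 := by
      exact_mod_cast hp.ne_zero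
    exact cst_mem_prime hp hv (P := Units.mk0 _ h0) rfl _ m rfl r hr n s hs
  · push Not at h
    have hone : ∀ (a : Lˣ) (z : ℤ), (a : L) = (z : L) → v (a : L) = 1 := by
      intro a z ha
      have hz : z ≠ 0 := by
        rintro rfl
        apply a.ne_zero
        rw [ha, Int.cast_zero]
      rw [ha]
      exact le_antisymm (val_int_le v z) (h z hz)
    exact sy_mem_unit (hone r m hr) (hone s n hs)

end Pool.Agent.W5h29.IN
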