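import Pool.Agent.W5h29.IN.Main
set_option autoImplicit false

/-!
Many lines: at most `48` lines are near a given node.
-/

namespace Pool.Agent.W5h29.IN

open Pool.Agent.W5h29.LA (Dat)

open Pool.Agent.W5h29.LA.Dat

open Pool.Agent.W5h29.LU (one_le_abs_of_int line_inj)

open Pool.Agent.W5h29.PC (ksize)

variable {N : ℕ} {D : Dat ℚ N}

/-- the positions of the near lines in general position -/
noncomputable def T1 : Finset (ℤ × ℤ × ℤ) :=
  ((Finset.Icc (1 : ℤ) 3) ×ˢ (Finset.Icc (-3 : ℤ) 3) ×ˢ (Finset.Icc (-3 : ℤ) 3)).filter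
    fun t => t.2.1 ≠ 0 ∧ t.2.2 ≠ 0 ∧ |t.2.1| * |t.2.2| ≤ t.1

theorem card_T1 : T1.card = 36 := by decide

/-- the positions of the near parallel lines -/
noncomputable def T2 (d : ℤ) : Finset (ℤ × ℤ × ℤ) :=
  (Finset.Icc (1 : ℤ) 3) ×ˢ ({(0, d), (0, -d), (d, 0), (-d, 0)} : Finset (ℤ × ℤ))

theorem card_T2 (d : ℤ) : (T2 d).card ≤ 12 := by
  unfold T2
  rw [Finset.card_product]
  have h1 : (Finset.Icc (1 : ℤ) 3).card = 3 := by decide
  have h2 : ({(0, d), (0, -d), (d, 0), (-d, 0)} : Finset (ℤ × ℤ)).card ≤ 4 := Finset.card_le_four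
  rw [h1]
  omega

/-- a line parallel to another one -/
theorem par_det (hA : Arr D) {x y z : Fin N} (h : D.det2 x y = 0) :
    D.det2 z y = D.det2 z x ∨ D.det2 z y = -D.det2 z x := by
  obtain ⟨κ, τ, hκ, h1, h2, -⟩ := par_class hA h
  unfold Dat.det2
  rw [h1, h2]
  rcases hκ with rfl | rfl
  · left
    ring
  · right
    ring

/-- at most `48` lines are near a node -/
theorem few (hA : Arr D) {p q : Fin N} (hd : D.det2 p q ≠ 0) :
    ((oth p q).filter fun a => |D.det3 p q a| < 4 * |D.det2 p q|).card ≤ 48 := by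
  classical
  choose n hn using fun a => hA.node_val hd a
  choose x hx using fun a => hA.det2_int q a
  choose y hy using fun a => hA.det2_int a p
  obtain ⟨d, hdd⟩ := hA.det2_int p q
  set S := (oth p q).filter fun a => |D.det3 p q a| < 4 * |D.det2 p q| with hS
  set φ : Fin N → ℤ × ℤ × ℤ := fun a => (|n a|, (n a).sign * x a, (n a).sign * y a) with hφ
  have hd0 : (0 : ℚ) < |D.det2 p q| := abs_pos.2 hd
  have hn0 : ∀ a ∈ S, n a ≠ 0 := by
    intro a ha h
    have h1 := mem_oth.1 (Finset.mem_filter.1 ha).1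
    apply hA.gen p q a hd h1.1 h1.2
    rw [hn a, h, Int.cast_zero, mul_zero]
  have hn3 : ∀ a ∈ S, |n a| ≤ 3 := by
    intro a ha
    have h1 := (Finset.mem_filter.1 ha).2
    rw [hn a, abs_mul, mul_comm, ← Int.cast_abs] at h1
    have h2 := lt_of_mul_lt_mul_right h1 hd0.le
    have h3 : |n a| < 4 := by exact_mod_cast h2
    omega
  have hsign : ∀ a ∈ S, |(n a).sign| = 1 := fun a ha => by
    rw [Int.abs_sign_of_ne_zero (hn0 a ha)]
  have hmap : ∀ a ∈ S, φ a ∈ T1 ∪ T2 d := by
    intro a ha
    have h1 := mem_oth.1 (Finset.mem_filter.1 ha).1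
    have h3 := hn3 a ha
    have h4 : 1 ≤ |n a| := Int.one_le_abs (hn0 a ha)
    have hs := hsign a ha
    have hs' : (n a).sign = 1 ∨ (n a).sign = -1 := by
      rcases abs_cases (n a).sign with h | h <;> omega
    by_cases d2 : D.det2 q a = 0
    · -- parallel to q
      apply Finset.mem_union_right
      have hx0 : x a = 0 := by
        have := hx a
        rw [d2] at this
        exact_mod_cast this.symm
      have hy0 : y a = d ∨ y a = -d := by
        have h5 := par_det hA (z := p) d2
        have h6 := hy a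
        rw [D.det2_symm a p] at h6
        rcases h5 with h5 | h5
        · right
          rw [h5, hdd] at h6
          have : (-d : ℤ) = y a := by exact_mod_cast h6
          exact this.symm
        · left
          rw [h5, hdd] at h6
          have : (- -d : ℤ) = y a := by exact_mod_cast h6
          rw [← this]
          ring
      unfold T2
      rw [Finset.mem_product]
      refine ⟨Finset.mem_Icc.2 ⟨h4, h3⟩, ?_⟩
      simp only [hφ, hx0, mul_zero]
      rcases hs' with e | e <;> rcases hy0 with e' | e' <;> rw [e, e'] <;> simp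
    by_cases d3 : D.det2 a p = 0
    · -- parallel to p
      apply Finset.mem_union_right
      have hy0 : y a = 0 := by
        have := hy a
        rw [d3] at this
        exact_mod_cast this.symm
      have hx0 : x a = d ∨ x a = -d := by
        have h5 := par_det hA (x := p) (y := a) (z := q)
          (by rw [D.det2_symm p a, d3, neg_zero])
        rw [D.det2_symm q p, hdd] at h5
        have h6 := hx a
        rcases h5 with h5 | h5
        · right
          rw [h5] at h6
          have : (-d : ℤ) = x a := by exact_mod_cast h6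
          exact this.symm
        · left
          rw [h5] at h6
          have : (- -d : ℤ) = x a := by exact_mod_cast h6
          rw [← this]
          ring
      unfold T2
      rw [Finset.mem_product]
      refine ⟨Finset.mem_Icc.2 ⟨h4, h3⟩, ?_⟩
      simp only [hφ, hy0, mul_zero]
      rcases hs' with e | e <;> rcases hx0 with e' | e' <;> rw [e, e'] <;> simp
    · apply Finset.mem_union_left
      have hx0 : x a ≠ 0 := by
        intro h
        apply d2
        rw [hx a, h, Int.cast_zero]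
      have hy0 : y a ≠ 0 := by
        intro h
        apply d3
        rw [hy a, h, Int.cast_zero]
      have h5 := hA.sep p q a hd d2 d3
      have h6 : |x a| * |y a| ≤ |n a| := by
        rw [hn a, abs_mul, mul_assoc] at h5
        have h7 := le_of_mul_le_mul_left h5 hd0
        rw [hx a, hy a] at h7
        exact_mod_cast h7
      have h7 : 1 ≤ |x a| := Int.one_le_abs hx0
      have h8 : 1 ≤ |y a| := Int.one_le_abs hy0
      have h9 : |x a| ≤ 3 := by nlinarith
      have h10 : |y a| ≤ 3 := by nlinarith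
      have e1 : |(n a).sign * x a| = |x a| := by rw [abs_mul, hs, one_mul]
      have e2 : |(n a).sign * y a| = |y a| := by rw [abs_mul, hs, one_mul]
      have hsn : (n a).sign ≠ 0 := by
        intro h
        rw [h] at hs
        norm_num at hs
      unfold T1
      rw [Finset.mem_filter, Finset.mem_product, Finset.mem_product]
      refine ⟨⟨Finset.mem_Icc.2 ⟨h4, h3⟩, Finset.mem_Icc.2 (abs_le.1 ?_),
        Finset.mem_Icc.2 (abs_le.1 ?_)⟩, ?_, ?_, ?_⟩
      · simp only [hφ]
        rw [e1]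
        exact h9
      · simp only [hφ]
        rw [e2]
        exact h10
      · exact mul_ne_zero hsn hx0
      · exact mul_ne_zero hsn hy0
      · simp only [hφ]
        rw [e1, e2]
        exact h6
  have hinj : Set.InjOn φ S := by
    intro a ha b hb hab
    simp only [hφ, Prod.mk.injEq] at hab
    obtain ⟨g1, g2, g3⟩ := hab
    have sa : (n a).sign * (n a).sign = 1 := by
      have := hsign a ha
      rcases abs_cases (n a).sign with h | h
      · rw [h.1] at this
        rw [this]
        ring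
      · rw [h.1] at this
        have h5 : (n a).sign = -1 := by linarith
        rw [h5]
        ring
    have e1 : x a = (n a).sign * (n b).sign * x b := by
      linear_combination (-(x a)) * sa + (n a).sign * g2
    have e2 : y a = (n a).sign * (n b).sign * y b := by
      linear_combination (-(y a)) * sa + (n a).sign * g3
    have e3 : n a = (n a).sign * (n b).sign * n b := by
      have h5 := Int.sign_mul_abs (n a)
      have h6 := Int.sign_mul_abs (n b)
      have h7 : (n b).sign * n b = |n b| := Int.sign_mul_self_eq_abs (n b)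
      rw [mul_assoc, h7, ← g1]
      exact h5.symm
    refine line_inj (D := D) (ε := (((n a).sign * (n b).sign : ℤ) : ℚ)) hA.gen hA.dir hd ?_ ?_ ?_
    · rw [hx a, hx b, ← Int.cast_mul]
      exact_mod_cast e1
    · rw [hy a, hy b, ← Int.cast_mul]
      exact_mod_cast e2
    · rw [hn a, hn b]
      have : ((n a : ℤ) : ℚ) = (((n a).sign * (n b).sign : ℤ) : ℚ) * ((n b : ℤ) : ℚ) := by
        exact_mod_cast e3
      rw [this]
      ring
  have h1 := Finset.card_le_card_of_injOn φ hmap hinj
  have h2 := Finset.card_union_le T1 (T2 d)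
  have h3 := card_T2 d
  rw [card_T1] at h2
  omega

/-- the far lines -/
theorem many (hA : Arr D) {p q : Fin N} (hd : D.det2 p q ≠ 0) :
    N ≤ ((oth p q).filter fun a => 4 * |D.det2 p q| ≤ |D.det3 p q a|).card + 50 := by
  have h1 := few hA hd
  have h2 : ((oth p q).filter fun a => |D.det3 p q a| < 4 * |D.det2 p q|).card +
      ((oth p q).filter fun a => ¬ |D.det3 p q a| < 4 * |D.det2 p q|).card = (oth p q).card :=
    Finset.card_filter_add_card_filter_not _
  simp only [not_lt] at h2
  rw [card_oth (ne_of_det2 hd)] at h2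
  omega

theorem far_many (hA : Arr D) (hN : 51 ≤ N) : Far D := by
  intro p q hd
  have h1 := many hA hd
  have h2 : 0 < ((oth p q).filter fun a => 4 * |D.det2 p q| ≤ |D.det3 p q a|).card := by omega
  obtain ⟨b, hb⟩ := Finset.card_pos.1 h2
  exact ⟨b, (Finset.mem_filter.1 hb).2⟩

theorem ratio_ge (hA : Arr D) {p q a : Fin N} (hd : D.det2 p q ≠ 0) (ha : a ∈ oth p q) :
    1 ≤ |D.det3 p q a| / |D.det2 p q| := by
  rw [le_div_iff₀ (abs_pos.2 hd), one_mul]
  exact hA.le_det3 hd (mem_oth.1 ha).1 (mem_oth.1 ha).2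

theorem size_many (hA : Arr D) {p q : Fin N} (hd : D.det2 p q ≠ 0) :
    4 ^ (N - 50) ≤ ksize D p q := by
  classical
  have h1 := many hA hd
  have hd0 : (0 : ℚ) < |D.det2 p q| := abs_pos.2 hd
  set F := (oth p q).filter fun a => 4 * |D.det2 p q| ≤ |D.det3 p q a| with hF
  have h2 : (4 : ℚ) ^ F.card ≤ ∏ a ∈ F, (|D.det3 p q a| / |D.det2 p q|) := by
    rw [← Finset.prod_const]
    refine Finset.prod_le_prod (fun _ _ => by norm_num) fun a ha => ?_
    rw [le_div_iff₀ hd0]
    exact (Finset.mem_filter.1 ha).2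
  have h3 : ∏ a ∈ F, (|D.det3 p q a| / |D.det2 p q|) ≤
      ∏ a ∈ oth p q, (|D.det3 p q a| / |D.det2 p q|) := by
    rw [← Finset.prod_filter_mul_prod_filter_not (oth p q)
      (fun a => 4 * |D.det2 p q| ≤ |D.det3 p q a|)]
    refine le_mul_of_one_le_right (Finset.prod_nonneg fun _ _ => by positivity) ?_
    have h6 : ∏ a ∈ (oth p q).filter (fun a => ¬ 4 * |D.det2 p q| ≤ |D.det3 p q a|), (1 : ℚ) ≤
        ∏ a ∈ (oth p q).filter (fun a => ¬ 4 * |D.det2 p q| ≤ |D.det3 p q a|),
          (|D.det3 p q a| / |D.det2 p q|) :=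
      Finset.prod_le_prod (fun _ _ => zero_le_one) fun a ha =>
        ratio_ge hA hd (Finset.mem_filter.1 ha).1
    rwa [Finset.prod_const_one] at h6
  have h4 : ∏ a ∈ oth p q, (|D.det3 p q a| / |D.det2 p q|) ≤ ksize D p q := by
    refine le_mul_of_one_le_left (Finset.prod_nonneg fun _ _ => ?_) (lam_ge hA)
    positivity
  have h5 : (4 : ℚ) ^ (N - 50) ≤ 4 ^ F.card := pow_le_pow_right₀ (by norm_num) (by omega)
  exact h5.trans (h2.trans (h3.trans h4))

theorem pow_bound : ∀ N : ℕ, 100 ≤ N → 6250000 * N ^ 6 ≤ 4 ^ (N - 50) := by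
  intro N hN
  induction N, hN using Nat.le_induction with
  | base => norm_num
  | succ N hN ih =>
    have e : N + 1 - 50 = (N - 50) + 1 := by omega
    rw [e, pow_succ]
    have h1 : (N + 1) ^ 6 ≤ 4 * N ^ 6 := by
      have h2 : (100 * (N + 1)) ^ 6 ≤ (101 * N) ^ 6 := Nat.pow_le_pow_left (by omega) 6
      rw [mul_pow, mul_pow] at h2
      have h3 : 101 ^ 6 ≤ 4 * 100 ^ 6 := by norm_num
      have h4 : 101 ^ 6 * N ^ 6 ≤ 4 * 100 ^ 6 * N ^ 6 := Nat.mul_le_mul_right _ h3
      have h5 : 100 ^ 6 * (N + 1) ^ 6 ≤ 100 ^ 6 * (4 * N ^ 6) := by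
        calc 100 ^ 6 * (N + 1) ^ 6 ≤ 101 ^ 6 * N ^ 6 := h2
          _ ≤ 4 * 100 ^ 6 * N ^ 6 := h4
          _ = 100 ^ 6 * (4 * N ^ 6) := by ring
      exact Nat.le_of_mul_le_mul_left h5 (by norm_num)
    calc 6250000 * (N + 1) ^ 6 ≤ 6250000 * (4 * N ^ 6) := Nat.mul_le_mul_left _ h1
      _ = 6250000 * N ^ 6 * 4 := by ring
      _ ≤ 4 ^ (N - 50) * 4 := Nat.mul_le_mul_right _ ih

theorem pow_six (N : ℕ) : N ^ 6 ≤ 16 * 4 ^ N := by
  by_cases h : N < 6
  · interval_cases N <;> norm_num
  · push Not at h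
    induction N, h using Nat.le_induction with
    | base => norm_num
    | succ N hN ih =>
      have h1 : (N + 1) ^ 6 ≤ 4 * N ^ 6 := by
        have h2 : (6 * (N + 1)) ^ 6 ≤ (7 * N) ^ 6 := Nat.pow_le_pow_left (by omega) 6
        rw [mul_pow, mul_pow] at h2
        have h3 : 7 ^ 6 ≤ 4 * 6 ^ 6 := by norm_num
        have h4 : 7 ^ 6 * N ^ 6 ≤ 4 * 6 ^ 6 * N ^ 6 := Nat.mul_le_mul_right _ h3
        have h5 : 6 ^ 6 * (N + 1) ^ 6 ≤ 6 ^ 6 * (4 * N ^ 6) := by
          calc 6 ^ 6 * (N + 1) ^ 6 ≤ 7 ^ 6 * N ^ 6 := h2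
            _ ≤ 4 * 6 ^ 6 * N ^ 6 := h4
            _ = 6 ^ 6 * (4 * N ^ 6) := by ring
        exact Nat.le_of_mul_le_mul_left h5 (by norm_num)
      have h2 : 4 * N ^ 6 ≤ 4 * (16 * 4 ^ N) := Nat.mul_le_mul_left _ ih
      rw [pow_succ 4 N]
      omega

/-- the far lines exist if the sizes are large and `|λ| = 1` -/
theorem far_large (hl : |D.lam| < 2)
    (hK : ∀ p q, D.det2 p q ≠ 0 → 10 ^ 8 * 4 ^ N ≤ ksize D p q) : Far D := by
  intro p q hd
  by_contra hcon
  push Not at hcon
  have hd0 : (0 : ℚ) < |D.det2 p q| := abs_pos.2 hd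
  have h1 := hK p q hd
  have h2 : ∏ a ∈ oth p q, (|D.det3 p q a| / |D.det2 p q|) ≤ ∏ a ∈ oth p q, (4 : ℚ) := by
    refine Finset.prod_le_prod (fun _ _ => by positivity) fun a ha => ?_
    rw [div_le_iff₀ hd0]
    exact (hcon a).le
  rw [Finset.prod_const, card_oth (ne_of_det2 hd)] at h2
  have h3 : (4 : ℚ) ^ (N - 2) ≤ 4 ^ N := pow_le_pow_right₀ (by norm_num) (by omega)
  have h4 : ksize D p q ≤ 2 * 4 ^ N := by
    show |D.lam| * ∏ a ∈ oth p q, (|D.det3 p q a| / |D.det2 p q|) ≤ 2 * 4 ^ N
    exact mul_le_mul hl.le (h2.trans h3) (Finset.prod_nonneg fun _ _ => by positivity)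
      (by norm_num)
  have h5 : (0 : ℚ) < 4 ^ N := by positivity
  nlinarith

end Pool.Agent.W5h29.IN
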