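import Pool.Agent.W5h29.PC.Def
set_option autoImplicit false

/-!
Arrangements of lines over `ℤ` with integral nodes.
-/

namespace Pool.Agent.W5h29.IN

open Pool.Agent.W5h29.LA (Dat)

variable {N : ℕ}

/-- Arrangements with integral nodes: `L_p = α_p x + β_p y + γ_p` with integers `α_p, β_p, γ_p`,
`α_p` and `β_p` coprime, an integer `λ ≠ 0`; to every line there is one which is not parallel; three
different lines which are not all parallel have no common point; the point of intersection of two lines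
which are not parallel has integral coordinates; and `|det(L_p, L_q, L_a)|` is at least
`|det2 p q det2 q a det2 a p|` if no two of the three lines are parallel. -/
structure Arr (D : Dat ℚ N) : Prop where
  al : ∀ p, ∃ n : ℤ, D.al p = n
  be : ∀ p, ∃ n : ℤ, D.be p = n
  ga : ∀ p, ∃ n : ℤ, D.ga p = n
  prim : ∀ p, ∃ u w : ℤ, D.al p * u + D.be p * w = 1
  lam : ∃ n : ℤ, D.lam = n
  lam0 : D.lam ≠ 0
  dir : ∀ p, ∃ q, D.det2 p q ≠ 0
  gen : ∀ p q a, D.det2 p q ≠ 0 → a ≠ p → a ≠ q → D.det3 p q a ≠ 0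
  node : ∀ p q, D.det2 p q ≠ 0 → ∃ x y : ℤ, D.al p * x + D.be p * y + D.ga p = 0 ∧
    D.al q * x + D.be q * y + D.ga q = 0
  sep : ∀ p q a, D.det2 p q ≠ 0 → D.det2 q a ≠ 0 → D.det2 a p ≠ 0 →
    |D.det2 p q| * |D.det2 q a| * |D.det2 a p| ≤ |D.det3 p q a|

end Pool.Agent.W5h29.IN
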