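import Pool.Agent.W5h29.IN.Count
set_option autoImplicit false

/-!
Arrangements with vertical lines, in particular curves of degree three over the `x`-line.
-/

namespace Pool.Agent.W5h29.IN

open Pool.Agent.W5h29.LA (Dat)

open Pool.Agent.W5h29.LA.Dat

open Pool.Agent.W5h29.LU (one_le_abs_of_int)

open Pool.Agent.W5h29.PC (ksize)

variable {k n : ℕ}

/-- The curve `λ ∏_i (y + α_i x + γ_i) ∏_j (x - c_j) = 1`. -/
def fam (α γ : Fin k → ℤ) (c : Fin n → ℤ) (l : ℤ) : Dat ℚ (k + n) where
  al := Fin.append (fun i => (α i : ℚ)) fun _ => 1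
  be := Fin.append (fun _ => 1) fun _ => 0
  ga := Fin.append (fun i => (γ i : ℚ)) fun j => -(c j : ℚ)
  lam := l

section fam

variable {α γ : Fin k → ℤ} {c : Fin n → ℤ} {l : ℤ}

theorem d_ll (i j : Fin k) : (fam α γ c l).det2 (Fin.castAdd n i) (Fin.castAdd n j) =
    ((α i - α j : ℤ) : ℚ) := by
  unfold Dat.det2 fam
  simp

theorem d_lv (i : Fin k) (j : Fin n) :
    (fam α γ c l).det2 (Fin.castAdd n i) (Fin.natAdd k j) = -1 := by
  unfold Dat.det2 fam
  simp

theorem d_vl (i : Fin k) (j : Fin n) :
    (fam α γ c l).det2 (Fin.natAdd k j) (Fin.castAdd n i) = 1 := by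
  unfold Dat.det2 fam
  simp

theorem d_vv (i j : Fin n) :
    (fam α γ c l).det2 (Fin.natAdd k i) (Fin.natAdd k j) = 0 := by
  unfold Dat.det2 fam
  simp

/-- the determinant of three lines which are not vertical -/
def d3 (α γ : Fin k → ℤ) (i j m : Fin k) : ℤ :=
  γ i * (α j - α m) + γ j * (α m - α i) + γ m * (α i - α j)

theorem d_lll (i j m : Fin k) :
    (fam α γ c l).det3 (Fin.castAdd n i) (Fin.castAdd n j) (Fin.castAdd n m) =
      ((d3 α γ i j m : ℤ) : ℚ) := by
  unfold Dat.det3 d3
  rw [d_ll, d_ll, d_ll]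
  unfold fam
  simp

theorem d_llv (i j : Fin k) (m : Fin n) :
    (fam α γ c l).det3 (Fin.castAdd n i) (Fin.castAdd n j) (Fin.natAdd k m) =
      (((α j * c m + γ j) - (α i * c m + γ i) : ℤ) : ℚ) := by
  unfold Dat.det3
  rw [d_ll, d_lv, d_vl]
  unfold fam
  simp only [Fin.append_left, Fin.append_right]
  push_cast
  ring

theorem d_lvv (i : Fin k) (j m : Fin n) :
    (fam α γ c l).det3 (Fin.castAdd n i) (Fin.natAdd k j) (Fin.natAdd k m) =
      ((c m - c j : ℤ) : ℚ) := by
  unfold Dat.det3
  rw [d_vv, d_lv, d_vl]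
  unfold fam
  simp only [Fin.append_left, Fin.append_right]
  push_cast
  ring

/-- the conditions -/
structure Cond (α γ : Fin k → ℤ) (c : Fin n → ℤ) : Prop where
  k0 : 0 < k
  n0 : 0 < n
  inj : Function.Injective c
  node : ∀ i j, ∃ x : ℤ, γ i - γ j = (α j - α i) * x ∨ α i = α j
  off : ∀ i j m, i ≠ j → α i * c m + γ i ≠ α j * c m + γ j
  gen : ∀ i j m, i ≠ j → j ≠ m → m ≠ i → α i ≠ α j → d3 α γ i j m ≠ 0
  sep : ∀ i j m, α i ≠ α j → α j ≠ α m → α m ≠ α i →
    |α i - α j| * |α j - α m| * |α m - α i| ≤ |d3 α γ i j m|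

theorem arr_fam (h : Cond α γ c) (hl : l ≠ 0) : Arr (fam α γ c l) where
  al p := by
    refine Fin.addCases (fun i => ?_) (fun j => ?_) p
    · exact ⟨α i, by unfold fam; simp⟩
    · exact ⟨1, by unfold fam; simp⟩
  be p := by
    refine Fin.addCases (fun i => ?_) (fun j => ?_) p
    · exact ⟨1, by unfold fam; simp⟩
    · exact ⟨0, by unfold fam; simp⟩
  ga p := by
    refine Fin.addCases (fun i => ?_) (fun j => ?_) p
    · exact ⟨γ i, by unfold fam; simp⟩
    · exact ⟨-c j, by unfold fam; simp⟩
  prim p := by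
    refine Fin.addCases (fun i => ?_) (fun j => ?_) p
    · exact ⟨0, 1, by unfold fam; simp⟩
    · exact ⟨1, 0, by unfold fam; simp⟩
  lam := ⟨l, rfl⟩
  lam0 := by
    show ((l : ℤ) : ℚ) ≠ 0
    exact_mod_cast hl
  dir p := by
    refine Fin.addCases (fun i => ?_) (fun j => ?_) p
    · refine ⟨Fin.natAdd k ⟨0, h.n0⟩, ?_⟩
      rw [d_lv]
      norm_num
    · refine ⟨Fin.castAdd n ⟨0, h.k0⟩, ?_⟩
      rw [d_vl]
      norm_num
  gen p q a := by
    refine Fin.addCases (fun p => ?_) (fun p => ?_) p <;>
      refine Fin.addCases (fun q => ?_) (fun q => ?_) q <;>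
      refine Fin.addCases (fun a => ?_) (fun a => ?_) a
    · intro h1 h2 h3
      rw [d_ll] at h1
      rw [d_lll]
      have e1 : α p ≠ α q := by
        intro e
        apply h1
        rw [e]
        simp
      have e2 : a ≠ p := fun e => h2 (by rw [e])
      have e3 : a ≠ q := fun e => h3 (by rw [e])
      have e4 : p ≠ q := fun e => e1 (by rw [e])
      exact_mod_cast h.gen p q a e4 e3.symm e2 e1
    · intro h1 h2 h3
      rw [d_ll] at h1
      rw [d_llv]
      have e4 : p ≠ q := by
        intro e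
        apply h1
        rw [e]
        simp
      have e5 := h.off p q a e4
      have e6 : (α q * c a + γ q) - (α p * c a + γ p) ≠ 0 := by
        intro e
        apply e5
        linarith
      exact_mod_cast e6
    · intro h1 h2 h3
      rw [det3_swap', neg_ne_zero, d_llv]
      have e4 : p ≠ a := fun e => h2 (by rw [e])
      have e5 := h.off p a q e4
      have e6 : (α a * c q + γ a) - (α p * c q + γ p) ≠ 0 := by
        intro e
        apply e5
        linarith
      exact_mod_cast e6
    · intro h1 h2 h3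
      rw [d_lvv]
      have e4 : a ≠ q := fun e => h3 (by rw [e])
      have e6 : c a - c q ≠ 0 := fun e => e4 (h.inj (sub_eq_zero.1 e))
      exact_mod_cast e6
    · intro h1 h2 h3
      rw [← det3_cyc, d_llv]
      have e4 : q ≠ a := fun e => h3 (by rw [e])
      have e5 := h.off q a p e4
      have e6 : (α a * c p + γ a) - (α q * c p + γ q) ≠ 0 := by
        intro e
        apply e5
        linarith
      exact_mod_cast e6
    · intro h1 h2 h3
      rw [← det3_cyc, d_lvv]
      have e4 : a ≠ p := fun e => h2 (by rw [e])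
      have e6 : c p - c a ≠ 0 := fun e => e4 (h.inj (sub_eq_zero.1 e)).symm
      exact_mod_cast e6
    · intro h1
      rw [d_vv] at h1
      exact absurd rfl h1
    · intro h1
      rw [d_vv] at h1
      exact absurd rfl h1
  node p q := by
    refine Fin.addCases (fun p => ?_) (fun p => ?_) p <;>
      refine Fin.addCases (fun q => ?_) (fun q => ?_) q
    · intro h1
      rw [d_ll] at h1
      obtain ⟨x, hx | hx⟩ := h.node p q
      · have h2 : ((γ p : ℤ) : ℚ) - γ q = (α q - α p) * x := by exact_mod_cast hx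
        refine ⟨x, -(α p * x + γ p), ?_, ?_⟩
        · unfold fam
          simp only [Fin.append_left]
          push_cast
          ring
        · unfold fam
          simp only [Fin.append_left]
          push_cast
          linear_combination (-1) * h2
      · exfalso
        apply h1
        rw [hx]
        simp
    · intro _
      refine ⟨c q, -(α p * c q + γ p), ?_, ?_⟩
      · unfold fam
        simp only [Fin.append_left]
        push_cast
        ring
      · unfold fam
        simp only [Fin.append_right]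
        push_cast
        ring
    · intro _
      refine ⟨c p, -(α q * c p + γ q), ?_, ?_⟩
      · unfold fam
        simp only [Fin.append_right]
        push_cast
        ring
      · unfold fam
        simp only [Fin.append_left]
        push_cast
        ring
    · intro h1
      rw [d_vv] at h1
      exact absurd rfl h1
  sep p q a := by
    have key : ∀ (i j : Fin k) (m : Fin n), α i ≠ α j →
        |((α i - α j : ℤ) : ℚ)| ≤ |(((α j * c m + γ j) - (α i * c m + γ i) : ℤ) : ℚ)| := by
      intro i j m hij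
      have hij' : i ≠ j := fun e => hij (by rw [e])
      obtain ⟨x, hx | hx⟩ := h.node i j
      · have h1 := h.off i j m hij'
        have h2 : (α j * c m + γ j) - (α i * c m + γ i) = (α i - α j) * (x - c m) := by
          linear_combination (-1) * hx
        have h3 : x - c m ≠ 0 := by
          intro h4
          apply h1
          rw [h4, mul_zero] at h2
          linarith
        have h4 : |α i - α j| ≤ |(α j * c m + γ j) - (α i * c m + γ i)| := by
          rw [h2, abs_mul]
          exact le_mul_of_one_le_right (abs_nonneg _) (Int.one_le_abs h3)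
        exact_mod_cast h4
      · exact absurd hx hij
    refine Fin.addCases (fun p => ?_) (fun p => ?_) p <;>
      refine Fin.addCases (fun q => ?_) (fun q => ?_) q <;>
      refine Fin.addCases (fun a => ?_) (fun a => ?_) a
    · intro h1 h2 h3
      rw [d_ll] at h1 h2 h3 ⊢
      rw [d_ll, d_ll, d_lll]
      have e1 : α p ≠ α q := fun e => h1 (by rw [e]; simp)
      have e2 : α q ≠ α a := fun e => h2 (by rw [e]; simp)
      have e3 : α a ≠ α p := fun e => h3 (by rw [e]; simp)
      exact_mod_cast h.sep p q a e1 e2 e3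
    · intro h1 h2 h3
      rw [d_ll] at h1 ⊢
      rw [d_lv, d_vl, d_llv]
      have e1 : α p ≠ α q := fun e => h1 (by rw [e]; simp)
      have := key p q a e1
      simpa using this
    · intro h1 h2 h3
      rw [d_ll] at h3 ⊢
      rw [d_lv, d_vl, det3_swap', abs_neg, d_llv]
      have e1 : α a ≠ α p := fun e => h3 (by rw [e]; simp)
      have := key a p q e1
      simpa using this
    · intro h1 h2 h3
      rw [d_vv] at h2
      exact absurd rfl h2
    · intro h1 h2 h3
      rw [d_ll] at h2 ⊢
      rw [d_lv, d_vl, ← det3_cyc, d_llv]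
      have e1 : α q ≠ α a := fun e => h2 (by rw [e]; simp)
      have := key q a p e1
      simpa using this
    · intro h1 h2 h3
      rw [d_vv] at h3
      exact absurd rfl h3
    · intro h1
      rw [d_vv] at h1
      exact absurd rfl h1
    · intro h1
      rw [d_vv] at h1
      exact absurd rfl h1

/-- the number of the edges -/
theorem edges_fam : (fam α γ c l).edges =
    {e : Fin k × Fin k | e.1 < e.2 ∧ α e.1 ≠ α e.2}.ncard + k * n := by
  classical
  unfold Dat.edges
  set f : Fin k × Fin k → Fin (k + n) × Fin (k + n) :=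
    fun e => (Fin.castAdd n e.1, Fin.castAdd n e.2) with hf
  set g : Fin k × Fin n → Fin (k + n) × Fin (k + n) :=
    fun e => (Fin.castAdd n e.1, Fin.natAdd k e.2) with hg
  have hfi : Function.Injective f := by
    rintro ⟨a, b⟩ ⟨a', b'⟩ h
    simp only [hf, Prod.mk.injEq, Fin.castAdd_inj] at h
    exact Prod.ext h.1 h.2
  have hgi : Function.Injective g := by
    rintro ⟨a, b⟩ ⟨a', b'⟩ h
    simp only [hg, Prod.mk.injEq, Fin.castAdd_inj, Fin.natAdd_inj] at h
    exact Prod.ext h.1 h.2
  have e : {e : Fin (k + n) × Fin (k + n) | e.1 < e.2 ∧ (fam α γ c l).det2 e.1 e.2 ≠ 0} =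
      f '' {e : Fin k × Fin k | e.1 < e.2 ∧ α e.1 ≠ α e.2} ∪ g '' Set.univ := by
    ext ⟨p, q⟩
    simp only [Set.mem_ofPred_eq, Set.mem_union, Set.mem_image, Set.mem_univ, true_and,
      Prod.exists, hf, hg, Prod.mk.injEq]
    constructor
    · refine Fin.addCases (fun p => ?_) (fun p => ?_) p <;>
        refine Fin.addCases (fun q => ?_) (fun q => ?_) q
      · rintro ⟨h1, h2⟩
        left
        rw [d_ll] at h2
        refine ⟨p, q, ⟨?_, ?_⟩, rfl, rfl⟩
        · rw [Fin.lt_def, Fin.val_castAdd, Fin.val_castAdd] at h1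
          exact h1
        · intro h3
          apply h2
          rw [h3]
          simp
      · rintro ⟨h1, h2⟩
        right
        exact ⟨p, q, rfl, rfl⟩
      · rintro ⟨h1, h2⟩
        exfalso
        rw [Fin.lt_def, Fin.val_natAdd, Fin.val_castAdd] at h1
        omega
      · rintro ⟨h1, h2⟩
        rw [d_vv] at h2
        exact absurd rfl h2
    · rintro (⟨a, b, ⟨h1, h2⟩, rfl, rfl⟩ | ⟨a, b, rfl, rfl⟩)
      · refine ⟨by rw [Fin.lt_def, Fin.val_castAdd, Fin.val_castAdd]; exact h1, ?_⟩
        rw [d_ll]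
        have h3 : α a - α b ≠ 0 := sub_ne_zero.2 h2
        exact_mod_cast h3
      · refine ⟨?_, ?_⟩
        · rw [Fin.lt_def, Fin.val_natAdd, Fin.val_castAdd]
          omega
        · rw [d_lv]
          norm_num
  rw [e, Set.ncard_union_eq, Set.ncard_image_of_injective _ hfi, Set.ncard_image_of_injective _ hgi,
    Set.ncard_univ, Nat.card_eq_fintype_card, Fintype.card_prod, Fintype.card_fin,
    Fintype.card_fin]
  rw [Set.disjoint_left]
  rintro _ ⟨⟨a, b⟩, -, rfl⟩ ⟨⟨a', b'⟩, -, h⟩
  simp only [hf, hg, Prod.mk.injEq] at h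
  have h1 := congrArg Fin.val h.2
  rw [Fin.val_natAdd, Fin.val_castAdd] at h1
  omega

/-- the sizes if the numbers `c_j` are large -/
theorem size_fam (h : Cond α γ c) (hl : l ≠ 0) (hne : ∀ i, ∃ j, α i ≠ α j) {B : ℤ}
    (hB : ∀ i j m, α i ≠ α j → B ≤ |(α j * c m + γ j) - (α i * c m + γ i)| / |α i - α j|)
    (p q : Fin (k + n)) (hd : (fam α γ c l).det2 p q ≠ 0) :
    (B : ℚ) ≤ ksize (fam α γ c l) p q := by
  classical
  have hA := arr_fam (l := l) h hl
  -- one factor
  have one : ∀ p q a, (fam α γ c l).det2 p q ≠ 0 → a ≠ p → a ≠ q →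
      |(fam α γ c l).det3 p q a| / |(fam α γ c l).det2 p q| ≤ ksize (fam α γ c l) p q := by
    intro p q a hd h1 h2
    have h3 : a ∈ oth p q := mem_oth.2 ⟨h1, h2⟩
    have h4 : ∏ x ∈ (oth p q).erase a, (1 : ℚ) ≤ ∏ x ∈ (oth p q).erase a,
        (|(fam α γ c l).det3 p q x| / |(fam α γ c l).det2 p q|) :=
      Finset.prod_le_prod (fun _ _ => zero_le_one) fun x hx =>
        ratio_ge hA hd (Finset.mem_erase.1 hx).2
    rw [Finset.prod_const_one] at h4
    have h5 : |(fam α γ c l).det3 p q a| / |(fam α γ c l).det2 p q| ≤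
        ∏ x ∈ oth p q, (|(fam α γ c l).det3 p q x| / |(fam α γ c l).det2 p q|) := by
      rw [← Finset.mul_prod_erase _ _ h3]
      exact le_mul_of_one_le_right (by positivity) h4
    refine h5.trans ?_
    exact le_mul_of_one_le_left (Finset.prod_nonneg fun _ _ => by positivity) (lam_ge hA)
  have hB' : ∀ i j m, α i ≠ α j → (B : ℚ) * |((α i - α j : ℤ) : ℚ)| ≤
      |(((α j * c m + γ j) - (α i * c m + γ i) : ℤ) : ℚ)| := by
    intro i j m hij
    have h0 : 0 < |α i - α j| := abs_pos.2 (sub_ne_zero.2 hij)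
    have h1 := hB i j m hij
    rw [Int.le_ediv_iff_mul_le h0] at h1
    exact_mod_cast h1
  have hB1 : ∀ i j m, α i ≠ α j → (B : ℚ) ≤
      |(((α j * c m + γ j) - (α i * c m + γ i) : ℤ) : ℚ)| := by
    intro i j m hij
    by_cases hB0 : (B : ℚ) ≤ 0
    · exact hB0.trans (abs_nonneg _)
    push Not at hB0
    refine le_trans ?_ (hB' i j m hij)
    refine le_mul_of_one_le_right hB0.le ?_
    have h0 : 1 ≤ |α i - α j| := Int.one_le_abs (sub_ne_zero.2 hij)
    exact_mod_cast h0
  have case_lv : ∀ (i : Fin k) (m : Fin n),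
      ∃ a, a ≠ Fin.castAdd n i ∧ a ≠ Fin.natAdd k m ∧
        (B : ℚ) ≤ |(fam α γ c l).det3 (Fin.castAdd n i) (Fin.natAdd k m) a| := by
    intro i m
    obtain ⟨j, hj⟩ := hne i
    refine ⟨Fin.castAdd n j, ?_, ?_, ?_⟩
    · intro h1
      rw [Fin.castAdd_inj] at h1
      exact hj (by rw [h1])
    · intro h1
      have h2 := congrArg Fin.val h1
      rw [Fin.val_natAdd, Fin.val_castAdd] at h2
      omega
    · rw [det3_swap', abs_neg, d_llv]
      exact hB1 i j m hj
  revert hd
  refine Fin.addCases (fun p => ?_) (fun p => ?_) p <;>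
    refine Fin.addCases (fun q => ?_) (fun q => ?_) q
  · intro hd
    refine le_trans ?_ (one _ _ (Fin.natAdd k ⟨0, h.n0⟩) hd ?_ ?_)
    · rw [le_div_iff₀ (abs_pos.2 hd), d_ll, d_llv]
      apply hB'
      intro h1
      apply hd
      rw [d_ll, h1]
      simp
    · intro h1
      have h2 := congrArg Fin.val h1
      rw [Fin.val_natAdd, Fin.val_castAdd] at h2
      omega
    · intro h1
      have h2 := congrArg Fin.val h1
      rw [Fin.val_natAdd, Fin.val_castAdd] at h2
      omega
  · intro hd
    obtain ⟨a, h1, h2, h3⟩ := case_lv p q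
    refine le_trans ?_ (one _ _ a hd h1 h2)
    rw [d_lv, abs_neg, abs_one, div_one]
    exact h3
  · intro hd
    obtain ⟨a, h1, h2, h3⟩ := case_lv q p
    refine le_trans ?_ (one _ _ a hd h2 h1)
    rw [d_vl, abs_one, div_one, det3_swap, abs_neg]
    exact h3
  · intro hd
    rw [d_vv] at hd
    exact absurd rfl hd

end fam

end Pool.Agent.W5h29.IN
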