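import Pool.Agent.W5h29.PC.Ind
import Pool.Agent.W5h29.PC.Pos
import Pool.Agent.W5h29.IN.Def
set_option autoImplicit false

/-!
Estimates for the determinants, and the inequality for the regulators.
-/

namespace Pool.Agent.W5h29.IN

open MvPolynomial

open Pool.Agent.TH826.MK (KQ symb Torus)

open Pool.Agent.W5h29.LA (Dat)

open Pool.Agent.W5h29.LA.Dat

open Pool.Agent.W5h29.PC (bs ell ell_symm exists_loop lq)

open Pool.Agent.W5h29.LU (Aa one_le_abs_of_int two_le_abs_of_int)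

section ineq

variable {K : Type*} [Field K] {N : ℕ} {D : Dat K N} {σ : K →+* ℂ}

/-- the inequality for a circulation whose regulator vanishes -/
theorem ineq' {η : ℝ} (hη : 0 ≤ η) (hN : (N : ℝ) * η ≤ 1 / 10)
    (hl0 : σ D.lam ≠ 0)
    (h0 : ∀ p q a, D.det2 p q ≠ 0 → a ≠ p → a ≠ q → D.det3 p q a ≠ 0)
    (h1 : ∀ p q a, D.det2 p q ≠ 0 → a ≠ p → a ≠ q → ‖σ (D.det2 a q)‖ ≤ ‖σ (D.det3 p q a)‖)
    (h2 : ∀ p q a, D.det2 p q ≠ 0 → a ≠ p → a ≠ q → ‖σ (D.det2 p a)‖ ≤ ‖σ (D.det3 p q a)‖)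
    (hK : ∀ p q, D.det2 p q ≠ 0 →
      1 ≤ η ^ 2 * (‖σ D.lam‖ * ∏ a ∈ oth p q, ‖Aa D σ p q a‖))
    {c : Fin N → Fin N → ℝ} (hc : c ∈ D.circ ℝ)
    (hreg : ∀ T : Torus D.CRing 1, (∀ θ y, T.e θ (D.cst y) = σ y) →
      ∑ p, ∑ q, c p q * T.reg (bs D p q) = 0) :
    2 * Real.pi * Real.log ‖σ D.lam‖ * LA.Alg.n2 c + 2 / 3 * Real.pi *
      ∑ p, ∑ q, ∑ a, Real.log ‖σ (D.det3 p q a)‖ * LA.Alg.dc c p q a ^ 2 -
      2 * Real.pi * N * ∑ p, ∑ q, ell D σ p q * c p q ^ 2 ≤
      7 * Real.pi * η * (3 * N * LA.Alg.n2 c) +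
        22 * Real.pi * η ^ 2 * (3 / 2 * N ^ 2 * LA.Alg.n2 c) := by
  obtain ⟨hc1, hc2, hc3⟩ := hc
  refine PC.Alg.main c hc1 hc3 (fun p q a => Real.log ‖σ (D.det3 p q a)‖) ?_ (ell D σ) (by positivity)
    (by positivity) ?_
  · intro p q a
    have e : D.det3 q a p = D.det3 p q a := by
      unfold Dat.det3
      ring
    simp only [e]
  · intro p q hpq0
    have hd : D.det2 p q ≠ 0 := fun h => hpq0 (hc2 p q h)
    have hpq := ne_of_det2 hd
    obtain ⟨E, w, T, hT, hE, wp, wq, wa, hanti, hp, hA, he, hF⟩ :=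
      exists_loop hη hN hl0 hd (fun a => h0 p q a hd) (fun a => h1 p q a hd)
        (fun a => h2 p q a hd) (hK p q hd)
    refine ⟨fun a => E p a, E, ?_, hF, ?_⟩
    · intro a hap haq
      have h3 := he a hap haq
      have e : Real.log ‖Aa D σ p q a‖ = Real.log ‖σ (D.det3 p q a)‖ - ell D σ p q := by
        unfold Aa ell
        rw [norm_div, Real.log_div]
        · exact norm_ne_zero_iff.2 ((map_ne_zero σ).2 (h0 p q a hd hap haq))
        · exact norm_ne_zero_iff.2 ((map_ne_zero σ).2 hd)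
      rwa [e] at h3
    have h3 := hreg T hT
    simp only [hE] at h3
    have h4 := LA.Alg.identity hpq c E hc1 hanti _ hp hA
    -- the correction
    have h5 : ∑ a, ∑ b, c a b * (Real.log ‖σ (D.det2 a b)‖ * (w a - w b)) =
        2 * ∑ a, w a * ∑ b, c a b * ell D σ a b := by
      have e1 : ∑ a, ∑ b, c a b * (Real.log ‖σ (D.det2 a b)‖ * (w a - w b)) =
          ∑ a, ∑ b, c a b * ell D σ a b * w a - ∑ a, ∑ b, c a b * ell D σ a b * w b := by
        rw [← Finset.sum_sub_distrib]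
        refine Finset.sum_congr rfl fun a _ => ?_
        rw [← Finset.sum_sub_distrib]
        refine Finset.sum_congr rfl fun b _ => ?_
        unfold ell
        ring
      have e2 : ∑ a, ∑ b, c a b * ell D σ a b * w b = -∑ a, ∑ b, c a b * ell D σ a b * w a := by
        rw [Finset.sum_comm, ← Finset.sum_neg_distrib]
        refine Finset.sum_congr rfl fun a _ => ?_
        rw [← Finset.sum_neg_distrib]
        refine Finset.sum_congr rfl fun b _ => ?_
        rw [hc1 a b, ell_symm a b]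
        ring
      have e3 : ∑ a, ∑ b, c a b * ell D σ a b * w a = ∑ a, w a * ∑ b, c a b * ell D σ a b := by
        refine Finset.sum_congr rfl fun a _ => ?_
        rw [Finset.mul_sum]
        refine Finset.sum_congr rfl fun b _ => ?_
        ring
      rw [e1, e2, e3]
      ring
    have h6 : ∑ a, w a * ∑ b, c a b * ell D σ a b =
        2 * Real.pi * (∑ b, c p b * ell D σ p b - ∑ b, c q b * ell D σ q b) := by
      have h7 : ∑ a ∈ (Finset.univ.erase p).erase q, w a * ∑ b, c a b * ell D σ a b = 0 := by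
        refine Finset.sum_eq_zero fun a ha => ?_
        rw [wa a (mem_oth.1 ha).1 (mem_oth.1 ha).2, zero_mul]
      rw [LA.Alg.split_sum hpq, wp, wq, h7]
      ring
    have h7 : ∑ a, ∑ b, c a b * (E a b + Real.log ‖σ (D.det2 a b)‖ * (w a - w b)) =
        ∑ a, ∑ b, c a b * E a b +
          ∑ a, ∑ b, c a b * (Real.log ‖σ (D.det2 a b)‖ * (w a - w b)) := by
      simp only [← Finset.sum_add_distrib, ← mul_add]
    rw [h7, h5, h6] at h3
    have h8 : (2 * Real.pi * Real.log ‖σ D.lam‖ * c p q -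
        ∑ a ∈ (Finset.univ.erase p).erase q, E p a * (c p q + c q a + c a p) +
        ∑ a ∈ (Finset.univ.erase p).erase q, ∑ b ∈ (Finset.univ.erase p).erase q,
          (c q a + 1 / 2 * c a b) * E a b) +
        2 * Real.pi * (∑ b, c p b * ell D σ p b - ∑ b, c q b * ell D σ q b) = 0 := by
      rw [← h4]
      linarith
    exact h8


end ineq

section base

variable {N : ℕ} {D : Dat ℚ N}

theorem Arr.det2_int (hA : Arr D) (p q : Fin N) : ∃ n : ℤ, D.det2 p q = n := by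
  obtain ⟨a, ha⟩ := hA.al p
  obtain ⟨b, hb⟩ := hA.be q
  obtain ⟨c, hc⟩ := hA.al q
  obtain ⟨d, hd⟩ := hA.be p
  exact ⟨a * b - c * d, by unfold Dat.det2; rw [ha, hb, hc, hd]; push_cast; ring⟩

theorem Arr.det2_ge (hA : Arr D) {p q : Fin N} (h : D.det2 p q ≠ 0) : 1 ≤ |D.det2 p q| :=
  one_le_abs_of_int (hA.det2_int p q) h

theorem det3_cyc (D : Dat ℚ N) (p q a : Fin N) : D.det3 q a p = D.det3 p q a := by
  unfold Dat.det3
  ring

theorem det3_swap (D : Dat ℚ N) (p q a : Fin N) : D.det3 q p a = -D.det3 p q a := by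
  unfold Dat.det3 Dat.det2
  ring

theorem det3_swap' (D : Dat ℚ N) (p q a : Fin N) : D.det3 p a q = -D.det3 p q a := by
  unfold Dat.det3 Dat.det2
  ring

/-- the value at a node -/
theorem Arr.node_val (hA : Arr D) {p q : Fin N} (h : D.det2 p q ≠ 0) (a : Fin N) :
    ∃ n : ℤ, D.det3 p q a = D.det2 p q * n := by
  obtain ⟨x, y, h1, h2⟩ := hA.node p q h
  obtain ⟨α, hα⟩ := hA.al a
  obtain ⟨β, hβ⟩ := hA.be a
  obtain ⟨γ, hγ⟩ := hA.ga a
  refine ⟨α * x + β * y + γ, ?_⟩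
  push_cast
  rw [← hα, ← hβ, ← hγ]
  unfold Dat.det3 Dat.det2
  linear_combination (D.al q * D.be a - D.al a * D.be q) * h1 +
    (D.al a * D.be p - D.al p * D.be a) * h2

theorem Arr.det3_int (hA : Arr D) (p q a : Fin N) : ∃ n : ℤ, D.det3 p q a = n := by
  obtain ⟨x, hx⟩ := hA.det2_int q a
  obtain ⟨y, hy⟩ := hA.det2_int a p
  obtain ⟨z, hz⟩ := hA.det2_int p q
  obtain ⟨g, hg⟩ := hA.ga p
  obtain ⟨g', hg'⟩ := hA.ga q
  obtain ⟨g'', hg''⟩ := hA.ga a
  exact ⟨g * x + g' * y + g'' * z, by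
    unfold Dat.det3; rw [hx, hy, hz, hg, hg', hg'']; push_cast; ring⟩

theorem Arr.det3_ge (hA : Arr D) {p q a : Fin N} (h : D.det2 p q ≠ 0) (h1 : a ≠ p) (h2 : a ≠ q) :
    1 ≤ |D.det3 p q a| := one_le_abs_of_int (hA.det3_int p q a) (hA.gen p q a h h1 h2)

theorem abs_mul_int {x y : ℚ} {n : ℤ} (h : x = y * n) (hx : x ≠ 0) : |y| ≤ |x| := by
  have hn : n ≠ 0 := by
    rintro rfl
    apply hx
    rw [h, Int.cast_zero, mul_zero]
  have h1 : (1 : ℚ) ≤ |(n : ℚ)| := by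
    rw [← Int.cast_abs]
    exact_mod_cast Int.one_le_abs hn
  rw [h, abs_mul]
  exact le_mul_of_one_le_right (abs_nonneg _) h1

theorem Arr.le_det3 (hA : Arr D) {p q a : Fin N} (h : D.det2 p q ≠ 0) (h1 : a ≠ p) (h2 : a ≠ q) :
    |D.det2 p q| ≤ |D.det3 p q a| := by
  obtain ⟨n, hn⟩ := hA.node_val h a
  exact abs_mul_int hn (hA.gen p q a h h1 h2)

theorem Arr.le_det3_q (hA : Arr D) {p q a : Fin N} (h : D.det2 p q ≠ 0) (h1 : a ≠ p) :
    |D.det2 q a| ≤ |D.det3 p q a| := by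
  by_cases h3 : D.det2 q a = 0
  · rw [h3, abs_zero]
    exact abs_nonneg _
  · rw [← det3_cyc]
    exact hA.le_det3 h3 (ne_of_det2 h) h1.symm

theorem Arr.le_det3_p (hA : Arr D) {p q a : Fin N} (h : D.det2 p q ≠ 0) (h2 : a ≠ q) :
    |D.det2 a p| ≤ |D.det3 p q a| := by
  by_cases h3 : D.det2 a p = 0
  · rw [h3, abs_zero]
    exact abs_nonneg _
  · rw [← det3_cyc, ← det3_cyc]
    exact hA.le_det3 h3 h2.symm (ne_of_det2 h).symm

/-- two lines which meet a third one -/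
theorem Arr.mul_le (hA : Arr D) {p q a : Fin N} (h : D.det2 p q ≠ 0) (h' : D.det2 p a ≠ 0)
    (h1 : a ≠ q) : |D.det2 p q| * |D.det2 p a| ≤ |D.det3 p q a| := by
  obtain ⟨x, y, h2, h3⟩ := hA.node p q h
  obtain ⟨x', y', h4, h5⟩ := hA.node p a h'
  obtain ⟨u, w, huw⟩ := hA.prim p
  have hne := hA.gen p q a h (ne_of_det2 h').symm h1
  rw [← abs_mul]
  refine abs_mul_int (n := w * (x' - x) - u * (y' - y)) ?_ hne
  push_cast
  unfold Dat.det3 Dat.det2
  set αp := D.al p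
  set βp := D.be p
  set γp := D.ga p
  set αq := D.al q
  set βq := D.be q
  set γq := D.ga q
  set αa := D.al a
  set βa := D.be a
  set γa := D.ga a
  -- the displacement
  have e1 : (x' : ℚ) - x = βp * (w * (x' - x) - u * (y' - y)) := by
    linear_combination (x' - x) * (-huw) + u * (h4 - h2)
  have e2 : (y' : ℚ) - y = -αp * (w * (x' - x) - u * (y' - y)) := by
    linear_combination (y' - y) * (-huw) + w * (h4 - h2)
  set k : ℚ := w * (x' - x) - u * (y' - y)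
  have e3 : γp = -(αp * x + βp * y) := by linear_combination h2
  have e4 : γq = -(αq * x + βq * y) := by linear_combination h3
  have e5 : γa = -(αa * x' + βa * y') := by linear_combination h5
  rw [e3, e4, e5]
  linear_combination (-(αp * βq - αq * βp) * αa) * e1 + (-(αp * βq - αq * βp) * βa) * e2

theorem par_two (hA : Arr D) {p q a : Fin N} (h1 : D.det2 p q = 0) (h2 : D.det2 q a = 0) :
    D.det2 a p = 0 := by
  by_contra h3
  exact (par_trans hA.dir (det2_ne_symm h3) h1) h2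

theorem log_nonneg_int {x : ℚ} (h : ∃ n : ℤ, x = n) : 0 ≤ Real.log |((x : ℚ) : ℝ)| := by
  by_cases h0 : x = 0
  · rw [h0]
    simp
  · apply Real.log_nonneg
    exact_mod_cast one_le_abs_of_int h h0

theorem lq_nonneg (hA : Arr D) (p q : Fin N) : 0 ≤ lq D p q := log_nonneg_int (hA.det2_int p q)

theorem lq_zero {p q : Fin N} (h : D.det2 p q = 0) : lq D p q = 0 := by
  unfold lq
  rw [h]
  simp

theorem log_mul_le {x y z : ℚ} (hx : x ≠ 0) (hy : y ≠ 0) (h : |x| * |y| ≤ |z|) :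
    Real.log |((x : ℚ) : ℝ)| + Real.log |((y : ℚ) : ℝ)| ≤ Real.log |((z : ℚ) : ℝ)| := by
  have g1 : (0 : ℝ) < |((x : ℚ) : ℝ)| := abs_pos.2 (by exact_mod_cast hx)
  have g2 : (0 : ℝ) < |((y : ℚ) : ℝ)| := abs_pos.2 (by exact_mod_cast hy)
  rw [← Real.log_mul g1.ne' g2.ne']
  refine Real.log_le_log (mul_pos g1 g2) ?_
  exact_mod_cast h

/-- the logarithms of the determinants -/
theorem Arr.sum_log (hA : Arr D) {p q a : Fin N} (h1 : p ≠ q) (h2 : q ≠ a) (h3 : a ≠ p)
    (hne : ¬ (D.det2 p q = 0 ∧ D.det2 q a = 0)) :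
    lq D p q + lq D q a + lq D a p ≤ Real.log |((D.det3 p q a : ℚ) : ℝ)| := by
  by_cases d1 : D.det2 p q = 0
  · have d2 : D.det2 q a ≠ 0 := fun h => hne ⟨d1, h⟩
    have d3 : D.det2 a p ≠ 0 := by
      intro d3
      exact d2 (par_two hA d3 d1)
    rw [lq_zero d1, zero_add]
    have h4 := hA.mul_le (p := a) (q := q) (a := p) (det2_ne_symm d2) d3 h1
    have e : D.det3 a q p = -D.det3 p q a := by
      unfold Dat.det3 Dat.det2
      ring
    rw [e, abs_neg, D.det2_symm a q, abs_neg] at h4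
    exact log_mul_le d2 d3 h4
  by_cases d2 : D.det2 q a = 0
  · have d3 : D.det2 a p ≠ 0 := by
      intro d3
      exact d1 (par_two hA d2 d3)
    rw [lq_zero d2, add_zero]
    have h4 := hA.mul_le (p := p) (q := q) (a := a) d1 (det2_ne_symm d3) h2.symm
    rw [D.det2_symm p a, abs_neg] at h4
    exact log_mul_le d1 d3 h4
  by_cases d3 : D.det2 a p = 0
  · rw [lq_zero d3, add_zero]
    have h4 := hA.mul_le (p := q) (q := p) (a := a) (det2_ne_symm d1) d2 h3
    rw [det3_swap, abs_neg, D.det2_symm q p, abs_neg] at h4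
    exact log_mul_le d1 d2 h4
  · have h4 := hA.sep p q a d1 d2 d3
    have g1 : (0 : ℝ) < |((D.det2 p q : ℚ) : ℝ)| := abs_pos.2 (by exact_mod_cast d1)
    have g2 : (0 : ℝ) < |((D.det2 q a : ℚ) : ℝ)| := abs_pos.2 (by exact_mod_cast d2)
    have g3 : (0 : ℝ) < |((D.det2 a p : ℚ) : ℝ)| := abs_pos.2 (by exact_mod_cast d3)
    unfold lq
    rw [← Real.log_mul g1.ne' g2.ne', ← Real.log_mul (mul_pos g1 g2).ne' g3.ne']
    refine Real.log_le_log (mul_pos (mul_pos g1 g2) g3) ?_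
    exact_mod_cast h4

end base

end Pool.Agent.W5h29.IN
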