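import Pool.Agent.W5h29.IN.Pos
set_option autoImplicit false

/-!
Positivity: parallel lines.
-/

namespace Pool.Agent.W5h29.IN

open Pool.Agent.W5h29.LA (Dat)

open Pool.Agent.W5h29.LA.Dat

open Pool.Agent.W5h29.PC (lq RR RR_nonneg)

open Pool.Agent.W5h29.PC.Alg (Q1)

open Pool.Agent.W5h29.LU (one_le_abs_of_int two_le_abs_of_int)

open Pool.Agent.W5h29.LA.Alg (n2 n2_nonneg dc sum_dc)

variable {N : ℕ} {D : Dat ℚ N} {c : Fin N → Fin N → ℝ}

theorem log2_pos : 0 < Real.log 2 := Real.log_pos (by norm_num)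

/-- the difference of two columns -/
def gg (c : Fin N → Fin N → ℝ) (q a x : Fin N) : ℝ := c x q - c x a

theorem par_two' (hA : Arr D) {x q a : Fin N} (h : D.det2 q a = 0) (hx : D.det2 x q ≠ 0) :
    D.det2 x a ≠ 0 := by
  intro h1
  apply hx
  have h2 : D.det2 a q = 0 := by
    rw [D.det2_symm a q, h, neg_zero]
  have h3 := par_two hA h1 h2
  rw [D.det2_symm x q, h3, neg_zero]

theorem H0 (hA : Arr D) (hc : c ∈ D.circ ℝ) {x q a b : Fin N} (hqb : D.det2 q b = 0)
    (hab : D.det2 a b = 0) (hxq : x ≠ q) (hxa : x ≠ a) (hxb : x ≠ b) (hbq : b ≠ q) (hba : b ≠ a)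
    (h1 : 2 ≤ |D.det3 x q b|) (h2 : 2 ≤ |D.det3 x a b|) :
    Real.log 2 * gg c q a x ^ 2 ≤ 12 * BV D c := by
  have l1 := ctl hA hc hxq hbq.symm hxb.symm h1
  have l2 := ctl hA hc hxa hba.symm hxb.symm h2
  have e : gg c q a x = dc c x q b - dc c x a b := by
    unfold gg dc
    rw [hc.2.1 q b hqb, hc.2.1 a b hab]
    ring
  have hsq : gg c q a x ^ 2 ≤ 2 * (dc c x q b ^ 2 + dc c x a b ^ 2) := by
    rw [e]
    nlinarith [sq_nonneg (dc c x q b + dc c x a b)]
  have := mul_le_mul_of_nonneg_left hsq log2_pos.le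
  linarith

theorem H1 (hA : Arr D) (hc : c ∈ D.circ ℝ) {x q a y : Fin N} (hxq : x ≠ q) (hxa : x ≠ a)
    (hxy : x ≠ y) (hyq : y ≠ q) (hya : y ≠ a) (h1 : 2 ≤ |D.det3 x q y|)
    (h2 : 2 ≤ |D.det3 x a y|) :
    Real.log 2 * (gg c q a x - gg c q a y) ^ 2 ≤ 12 * BV D c := by
  have l1 := ctl hA hc hxq hyq.symm hxy.symm h1
  have l2 := ctl hA hc hxa hya.symm hxy.symm h2
  have e : gg c q a x - gg c q a y = dc c x q y - dc c x a y := by
    unfold gg dc
    rw [hc.1 y q, hc.1 y a]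
    ring
  have hsq : (gg c q a x - gg c q a y) ^ 2 ≤ 2 * (dc c x q y ^ 2 + dc c x a y ^ 2) := by
    rw [e]
    nlinarith [sq_nonneg (dc c x q y + dc c x a y)]
  have := mul_le_mul_of_nonneg_left hsq log2_pos.le
  linarith

theorem H2 (hA : Arr D) (hF : Far D) (hc : c ∈ D.circ ℝ) {x q a y : Fin N}
    (hqa : D.det2 q a = 0) (hx : D.det2 x q ≠ 0) (hy : D.det2 y q ≠ 0) (hxy : D.det2 x y ≠ 0) :
    Real.log 2 * (gg c q a x - gg c q a y) ^ 2 ≤ 108 * BV D c := by
  have l1 := np hA hF hc hx (det2_ne_symm hy) (det2_ne_symm hxy)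
  have l2 := np hA hF hc (par_two' hA hqa hx) (det2_ne_symm (par_two' hA hqa hy))
    (det2_ne_symm hxy)
  have e : gg c q a x - gg c q a y = dc c x q y - dc c x a y := by
    unfold gg dc
    rw [hc.1 y q, hc.1 y a]
    ring
  have hsq : (gg c q a x - gg c q a y) ^ 2 ≤ 2 * (dc c x q y ^ 2 + dc c x a y ^ 2) := by
    rw [e]
    nlinarith [sq_nonneg (dc c x q y + dc c x a y)]
  have := mul_le_mul_of_nonneg_left hsq log2_pos.le
  linarith

theorem tri_sq {u v w : ℝ} {A B K : ℝ} (h1 : Real.log 2 * (u - v) ^ 2 ≤ A * K)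
    (h2 : Real.log 2 * (v - w) ^ 2 ≤ B * K) :
    Real.log 2 * (u - w) ^ 2 ≤ (2 * A + 2 * B) * K := by
  have hsq : (u - w) ^ 2 ≤ 2 * ((u - v) ^ 2 + (v - w) ^ 2) := by
    nlinarith [sq_nonneg ((u - v) - (v - w))]
  have := mul_le_mul_of_nonneg_left hsq log2_pos.le
  linarith

theorem abs_kappa {κ : ℚ} (h : κ = 1 ∨ κ = -1) : |κ| = 1 := by
  rcases h with h | h <;> rw [h] <;> norm_num

/-- one line parallel to `x`: determinants with a third line -/
theorem det3_par {x y : Fin N} {κ τ : ℚ} (hκ : κ = 1 ∨ κ = -1) (h1 : D.al y = κ * D.al x)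
    (h2 : D.be y = κ * D.be x) (h3 : D.ga y = κ * (D.ga x + τ)) (q : Fin N) :
    |D.det3 x q y| = |τ| * |D.det2 x q| := by
  have e : D.det3 x q y = κ * (τ * D.det2 x q) := by
    unfold Dat.det3 Dat.det2
    rw [h1, h2, h3]
    ring
  rw [e, abs_mul, abs_kappa hκ, one_mul, abs_mul]

/-- two lines parallel to `x`: determinants with a third line -/
theorem det3_par2 {x y z : Fin N} {κ τ κ' τ' : ℚ} (hκ : κ = 1 ∨ κ = -1)
    (h1 : D.al y = κ * D.al x) (h2 : D.be y = κ * D.be x) (h3 : D.ga y = κ * (D.ga x + τ))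
    (hκ' : κ' = 1 ∨ κ' = -1)
    (h1' : D.al z = κ' * D.al x) (h2' : D.be z = κ' * D.be x) (h3' : D.ga z = κ' * (D.ga x + τ'))
    (q : Fin N) : |D.det3 y q z| = |τ' - τ| * |D.det2 x q| := by
  have e : D.det3 y q z = κ * (κ' * ((τ' - τ) * D.det2 x q)) := by
    unfold Dat.det3 Dat.det2
    rw [h1, h2, h3, h1', h2', h3']
    ring
  rw [e, abs_mul, abs_kappa hκ, one_mul, abs_mul, abs_kappa hκ', one_mul, abs_mul]

theorem tau_int (hA : Arr D) {x y : Fin N} {κ τ : ℚ} (hκ : κ = 1 ∨ κ = -1)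
    (h3 : D.ga y = κ * (D.ga x + τ)) : ∃ n : ℤ, τ = n := by
  obtain ⟨a, ha⟩ := hA.ga x
  obtain ⟨b, hb⟩ := hA.ga y
  rcases hκ with rfl | rfl
  · exact ⟨b - a, by push_cast; rw [← ha, ← hb]; linear_combination -h3⟩
  · exact ⟨-b - a, by push_cast; rw [← ha, ← hb]; linear_combination h3⟩

/-- all differences -/
theorem par_diff (hA : Arr D) (hF : Far D) (hc : c ∈ D.circ ℝ) {q a : Fin N}
    (hqa : D.det2 q a = 0)
    (hE : ∀ x b, D.det2 x q ≠ 0 → D.det2 q b = 0 → ¬ 4 * |D.det2 x q| ≤ |D.det3 x q b|)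
    {x y : Fin N} (hx : D.det2 x q ≠ 0) (hy : D.det2 y q ≠ 0) :
    Real.log 2 * (gg c q a x - gg c q a y) ^ 2 ≤ 432 * BV D c := by
  have hB := BV_nonneg hA hc
  by_cases hxy : D.det2 x y = 0
  swap
  · have := H2 hA hF hc hqa hx hy hxy
    linarith
  by_cases hne : x = y
  · subst hne
    rw [sub_self]
    linarith
  have hxa := par_two' hA hqa hx
  have hya := par_two' hA hqa hy
  obtain ⟨κ, τ, hκ, t1, t2, t3⟩ := par_class hA hxy
  by_cases hτ : 2 ≤ |τ|
  · have g1 := hA.det2_ge hx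
    have g2 := hA.det2_ge hxa
    have k1 : 2 ≤ |D.det3 x q y| := by
      rw [det3_par hκ t1 t2 t3]
      nlinarith
    have k2 : 2 ≤ |D.det3 x a y| := by
      rw [det3_par hκ t1 t2 t3]
      nlinarith
    have := H1 hA hc (ne_of_det2 hx) (ne_of_det2 hxa) hne (ne_of_det2 hy) (ne_of_det2 hya) k1 k2
    linarith
  push Not at hτ
  obtain ⟨b, hb⟩ := hF x q hx
  have hbq : D.det2 q b ≠ 0 := fun h => hE x b hx h hb
  have hbq' := det2_ne_symm hbq
  by_cases hxb : D.det2 x b = 0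
  · obtain ⟨κ', τ', hκ', s1, s2, s3⟩ := par_class hA hxb
    have hba := par_two' hA hqa hbq'
    have g1 := hA.det2_ge hx
    have g2 := hA.det2_ge hxa
    have hτ' : 4 ≤ |τ'| := by
      rw [det3_par hκ' s1 s2 s3] at hb
      exact le_of_mul_le_mul_right hb (by linarith)
    have hττ : 2 ≤ |τ' - τ| := by
      have h5 : |τ'| ≤ |τ' - τ| + |τ| := by
        have := abs_add_le (τ' - τ) τ
        rwa [sub_add_cancel] at this
      linarith
    have hbx : b ≠ x := by
      rintro rfl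
      rw [det3_self, abs_zero] at hb
      linarith
    have hby : b ≠ y := by
      rintro rfl
      have e1 : |D.det3 x q b| = |τ| * |D.det2 x q| := det3_par hκ t1 t2 t3 q
      rw [e1] at hb
      have := le_of_mul_le_mul_right hb (by linarith)
      linarith
    have k1 := H1 hA hc (x := x) (q := q) (a := a) (y := b) (ne_of_det2 hx) (ne_of_det2 hxa)
      hbx.symm (ne_of_det2 hbq') (ne_of_det2 hba)
      (by rw [det3_par hκ' s1 s2 s3]; nlinarith) (by rw [det3_par hκ' s1 s2 s3]; nlinarith)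
    have k2 := H1 hA hc (x := y) (q := q) (a := a) (y := b) (ne_of_det2 hy) (ne_of_det2 hya)
      hby.symm (ne_of_det2 hbq') (ne_of_det2 hba)
      (by rw [det3_par2 hκ t1 t2 t3 hκ' s1 s2 s3]; nlinarith)
      (by rw [det3_par2 hκ t1 t2 t3 hκ' s1 s2 s3]; nlinarith)
    have k2' : Real.log 2 * (gg c q a b - gg c q a y) ^ 2 ≤ 12 * BV D c := by
      have e : (gg c q a b - gg c q a y) ^ 2 = (gg c q a y - gg c q a b) ^ 2 := by ring
      rw [e]
      exact k2
    have := tri_sq k1 k2'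
    linarith
  · have hyb : D.det2 b y ≠ 0 := by
      intro h
      apply hxb
      have h1 := par_two hA (by rw [D.det2_symm y x, hxy, neg_zero] : D.det2 y x = 0)
        (q := x) (a := b)
      have h2 : D.det2 y b = 0 := by rw [D.det2_symm y b, h, neg_zero]
      have h3 := par_two hA (p := x) (q := y) (a := b) hxy h2
      rw [D.det2_symm x b, h3, neg_zero]
    have k1 := H2 hA hF hc hqa hx hbq' hxb
    have k2 := H2 hA hF hc hqa hbq' hy hyb
    have := tri_sq k1 k2
    linarith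

/-- parallel lines -/
theorem par_ctl (hA : Arr D) (hF : Far D) (hc : c ∈ D.circ ℝ) {p q a : Fin N}
    (hqa : D.det2 q a = 0) (hne : q ≠ a) (hp : D.det2 p q ≠ 0) :
    Real.log 2 * gg c q a p ^ 2 ≤ 432 * BV D c := by
  classical
  have hB := BV_nonneg hA hc
  have hpa := par_two' hA hqa hp
  by_cases h2 : 2 ≤ |D.det3 p q a|
  · have h3 := ctl hA hc (ne_of_det2 hp) hne (ne_of_det2 hpa).symm h2
    have e : dc c p q a = gg c q a p := by
      unfold gg dc
      rw [hc.2.1 q a hqa, hc.1 p a]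
      ring
    rw [e] at h3
    linarith
  push Not at h2
  obtain ⟨κ, τ, hκ, t1, t2, t3⟩ := par_class hA hqa
  have hτ : |τ| < 2 := by
    by_contra hcon
    push Not at hcon
    have h3 : |D.det3 p q a| = |D.det3 q p a| := by
      rw [det3_swap, abs_neg]
    rw [h3, det3_par hκ t1 t2 t3] at h2
    have h4 := hA.det2_ge (det2_ne_symm hp)
    nlinarith
  by_cases hE : ∃ x b, D.det2 x q ≠ 0 ∧ D.det2 q b = 0 ∧ 4 * |D.det2 x q| ≤ |D.det3 x q b|
  · -- a far parallel line
    obtain ⟨x, b, hx, hqb, hb⟩ := hE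
    obtain ⟨κ', τ', hκ', s1, s2, s3⟩ := par_class hA hqb
    have hτ' : 4 ≤ |τ'| := by
      have h3 : |D.det3 x q b| = |D.det3 q x b| := by
        rw [det3_swap, abs_neg]
      rw [h3, det3_par hκ' s1 s2 s3, D.det2_symm x q, abs_neg] at hb
      have h4 := hA.det2_ge (det2_ne_symm hx)
      exact le_of_mul_le_mul_right hb (by linarith)
    have hττ : 2 ≤ |τ' - τ| := by
      have h5 : |τ'| ≤ |τ' - τ| + |τ| := by
        have := abs_add_le (τ' - τ) τ
        rwa [sub_add_cancel] at this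
      linarith
    have h4 := hA.det2_ge (det2_ne_symm hp)
    have f1 : |D.det3 p q b| = |τ'| * |D.det2 q p| := by
      have h3 : |D.det3 p q b| = |D.det3 q p b| := by
        rw [det3_swap, abs_neg]
      rw [h3, det3_par hκ' s1 s2 s3]
    have f2 : |D.det3 p a b| = |τ' - τ| * |D.det2 q p| := by
      have h3 : |D.det3 p a b| = |D.det3 a p b| := by
        rw [det3_swap, abs_neg]
      rw [h3, det3_par2 hκ t1 t2 t3 hκ' s1 s2 s3]
    have hbq : b ≠ q := by
      rintro rfl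
      rw [det3_self', abs_zero] at f1
      nlinarith
    have hba : b ≠ a := by
      rintro rfl
      rw [det3_self', abs_zero] at f2
      nlinarith
    have hpb : p ≠ b := by
      rintro rfl
      exact hp (by rw [D.det2_symm p q, hqb, neg_zero])
    have hab : D.det2 a b = 0 := by
      have h5 : D.det2 a q = 0 := by rw [D.det2_symm a q, hqa, neg_zero]
      have h6 := par_two hA h5 hqb
      rw [D.det2_symm a b, h6, neg_zero]
    have := H0 hA hc hqb hab (ne_of_det2 hp) (ne_of_det2 hpa) hpb hbq hba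
      (by rw [f1]; nlinarith) (by rw [f2]; nlinarith)
    linarith
  · push Not at hE
    have hE' : ∀ x b, D.det2 x q ≠ 0 → D.det2 q b = 0 → ¬ 4 * |D.det2 x q| ≤ |D.det3 x q b| :=
      fun x b h1 h2 h3 => absurd (hE x b h1 h2) (not_lt.2 h3)
    set S : Finset (Fin N) := Finset.univ.filter fun x => D.det2 x q ≠ 0 with hS
    have hpS : p ∈ S := Finset.mem_filter.2 ⟨Finset.mem_univ _, hp⟩
    have hsum : ∑ x ∈ S, gg c q a x = 0 := by
      have h1 : ∑ x ∈ S, gg c q a x = ∑ x, gg c q a x := by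
        refine Finset.sum_subset (Finset.subset_univ _) fun x _ hx => ?_
        have h3 : D.det2 x q = 0 := by
          by_contra h3
          exact hx (Finset.mem_filter.2 ⟨Finset.mem_univ _, h3⟩)
        have h4 : D.det2 x a = 0 := by
          have h5 := par_two hA h3 hqa
          rw [D.det2_symm x a, h5, neg_zero]
        unfold gg
        rw [hc.2.1 x q h3, hc.2.1 x a h4, sub_zero]
      rw [h1]
      unfold gg
      rw [Finset.sum_sub_distrib, hc.2.2 q, hc.2.2 a, sub_zero]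
    have hn : (0 : ℝ) < S.card := by
      exact_mod_cast Finset.card_pos.2 ⟨p, hpS⟩
    have h1 : (S.card : ℝ) * gg c q a p = ∑ y ∈ S, (gg c q a p - gg c q a y) := by
      rw [Finset.sum_sub_distrib, hsum, Finset.sum_const, nsmul_eq_mul, sub_zero]
    have h3 := sq_sum_le_card_mul_sum_sq (s := S) (f := fun y => gg c q a p - gg c q a y)
    rw [← h1] at h3
    have h4 : Real.log 2 * ∑ y ∈ S, (gg c q a p - gg c q a y) ^ 2 ≤ S.card * (432 * BV D c) := by
      rw [Finset.mul_sum]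
      refine (Finset.sum_le_sum fun y hy => par_diff hA hF hc hqa hE' hp
        (Finset.mem_filter.1 hy).2).trans (le_of_eq ?_)
      rw [Finset.sum_const, nsmul_eq_mul]
    have h5 : Real.log 2 * ((S.card : ℝ) * gg c q a p) ^ 2 ≤
        (S.card : ℝ) * (S.card * (432 * BV D c)) := by
      have h6 := mul_le_mul_of_nonneg_left h3 log2_pos.le
      have h7 := mul_le_mul_of_nonneg_left h4 hn.le
      linarith
    have h6 : (S.card : ℝ) ^ 2 * (Real.log 2 * gg c q a p ^ 2) ≤
        (S.card : ℝ) ^ 2 * (432 * BV D c) := by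
      have e1 : (S.card : ℝ) ^ 2 * (Real.log 2 * gg c q a p ^ 2) =
          Real.log 2 * ((S.card : ℝ) * gg c q a p) ^ 2 := by ring
      have e2 : (S.card : ℝ) ^ 2 * (432 * BV D c) = (S.card : ℝ) * (S.card * (432 * BV D c)) := by
        ring
      rw [e1, e2]
      exact h5
    exact le_of_mul_le_mul_left h6 (by positivity)

/-- all triples -/
theorem all_ctl (hA : Arr D) (hF : Far D) (hc : c ∈ D.circ ℝ) (p q a : Fin N) :
    Real.log 2 * dc c p q a ^ 2 ≤ 432 * BV D c := by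
  have hB := BV_nonneg hA hc
  by_cases h : p = q ∨ q = a ∨ a = p ∨ (D.det2 p q = 0 ∧ D.det2 q a = 0 ∧ D.det2 a p = 0)
  · rw [dc_zero hc h]
    linarith
  push Not at h
  obtain ⟨hpq, hqa, hap, h4⟩ := h
  have key : ∀ {x y z : Fin N}, y ≠ z → D.det2 y z = 0 → D.det2 x y ≠ 0 →
      Real.log 2 * dc c x y z ^ 2 ≤ 432 * BV D c := by
    intro x y z hyz h1 h2
    have h3 := par_ctl hA hF hc h1 hyz h2
    have e : dc c x y z = gg c y z x := by
      unfold gg dc
      rw [hc.2.1 y z h1, hc.1 x z]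
      ring
    rw [e]
    exact h3
  by_cases d1 : D.det2 p q = 0
  · have d3 : D.det2 a p ≠ 0 := by
      intro d3
      exact h4 d1 (par_two hA d3 d1) d3
    rw [← dc_cyc, ← dc_cyc]
    exact key hpq d1 d3
  by_cases d2 : D.det2 q a = 0
  · exact key hqa d2 d1
  by_cases d3 : D.det2 a p = 0
  · rw [← dc_cyc]
    exact key hap d3 d2
  · have := np hA hF hc d1 d2 d3
    linarith

/-- positivity -/
theorem positive (hA : Arr D) (hF : Far D) (hN : 0 < N) (hc : c ∈ D.circ ℝ) :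
    Real.log 2 * n2 c ≤ 144 * N ^ 2 * BV D c := by
  have h1 := sum_dc c hc.2.2
  have h2 : Real.log 2 * ∑ p, ∑ q, ∑ a, dc c p q a ^ 2 ≤ N * (N * (N * (432 * BV D c))) := by
    simp only [Finset.mul_sum]
    refine (Finset.sum_le_sum fun p _ => Finset.sum_le_sum fun q _ => Finset.sum_le_sum fun a _ =>
      all_ctl hA hF hc p q a).trans (le_of_eq ?_)
    simp only [Finset.sum_const, Finset.card_univ, Fintype.card_fin, nsmul_eq_mul]
  rw [h1] at h2
  have hNR : (0 : ℝ) < N := by exact_mod_cast hN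
  have h3 : (3 * (N : ℝ)) * (Real.log 2 * n2 c) ≤ (3 * (N : ℝ)) * (144 * N ^ 2 * BV D c) := by
    linarith
  exact le_of_mul_le_mul_left h3 (by positivity)

end Pool.Agent.W5h29.IN
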