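import Pool.Agent.W5h29.IN.Def
import Pool.Agent.W5h29.IN.Cst
import Pool.Agent.W5h29.PC.Unr
set_option autoImplicit false

/-!
The elements given by the circulations are unramified.
-/

namespace Pool.Agent.W5h29.IN

open Pool.Agent.TH826.MK (KQ symb unitPart Unramified val_le_one_of_integral)

open Pool.Agent.Y797.HC (OU)

open Pool.Agent.W5h29.LA

open Pool.Agent.W5h29.PC (cu bs UnramifiedSymbols)

open scoped WithZero

section loc

variable {L : Type*} [Field L] {v : Valuation L ℤᵐ⁰} {N : ℕ}

/-- the determinant -/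
def dd (a b : Fin N → ℤ) (p q : Fin N) : ℤ := a p * b q - a q * b p

theorem sy_neg_one (s : Lˣ) : sy s (-1) = 0 := sy_tors_right (m := 2) two_ne_zero (by norm_num) s

theorem sy_pm {s e d : Lˣ} (h : (e : L) = (d : L) ∨ (e : L) = -(d : L)) : sy s e = sy s d := by
  rcases h with h | h
  · rw [Units.ext h]
  · have : e = -1 * d := by
      apply Units.ext
      rw [h]
      push_cast
      ring
    rw [this, sy_mul_right, sy_neg_one, zero_add]

theorem sy_gen (a b c : Lˣ) : sy (a * b) (a * c) = sy a c + sy b a + sy b c := by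
  rw [sy_mul_left, sy_mul_right, sy_mul_right, sy_self]
  abel

/-- the points at infinity where `x` dominates -/
theorem inf_case [CharZero L] {a b g : Fin N → ℤ} (hprim : ∀ p, ∃ u w : ℤ, a p * u + b p * w = 1)
    (X : Fin N → Fin N → ℤ)
    (hX : ∀ p q, dd a b p q ≠ 0 → g p * b q - g q * b p = -(dd a b p q * X p q))
    (x y : L) (hx : 1 < v x) (hyx : v y ≤ v x) (l : Fin N → Lˣ)
    (hl : ∀ p, (l p : L) = a p * x + b p * y + g p) (d : Fin N → Fin N → Lˣ)
    (hd : ∀ p q, dd a b p q ≠ 0 → (d p q : L) = (dd a b p q : ℤ) ∨ (d p q : L) = -(dd a b p q : ℤ)) :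
    ∃ gg : Fin N → KQ L 2, ∀ p q, dd a b p q ≠ 0 →
      (sy (l p) (l q) - sy (l p * (l q)⁻¹) (d p q)) - (gg p - gg q) ∈ unitPart v 2 := by
  classical
  have hx0 : x ≠ 0 := by
    rintro rfl
    rw [map_zero] at hx
    exact absurd hx (not_lt.2 zero_le)
  have hvx : 0 < v x := zero_lt_one.trans hx
  set x' : Lˣ := Units.mk0 x hx0 with hx'
  set M : Fin N → Lˣ := fun p => l p * x'⁻¹ with hM
  have hlM : ∀ p, l p = x' * M p := by
    intro p
    simp only [hM]
    rw [mul_comm (l p), mul_inv_cancel_left]
  set bu : Fin N → Lˣ := fun p => if h : (b p : L) = 0 then 1 else Units.mk0 (b p : L) h with hbu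
  have hbu0 : ∀ p, b p ≠ 0 → (bu p : L) = (b p : L) := by
    intro p hp
    simp only [hbu]
    rw [dif_neg (by exact_mod_cast hp)]
    rfl
  have hvi : ∀ n : ℤ, v ((n : L) * x⁻¹) < 1 := by
    intro n
    rw [map_mul, map_inv₀, ← div_eq_mul_inv, div_lt_one₀ hvx]
    exact (val_int_le v n).trans_lt hx
  -- the vertical lines
  have habs : ∀ p, b p = 0 → (a p = 1 ∨ a p = -1) := by
    intro p hp
    obtain ⟨u, w, h⟩ := hprim p
    rw [hp, zero_mul, add_zero] at h
    exact Int.eq_one_or_neg_one_of_mul_eq_one h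
  have hvert : ∀ p, b p = 0 → OU v ((M p : L) ^ 2) := by
    intro p hp
    have e : (M p : L) = (a p : L) + (g p : L) * x⁻¹ := by
      simp only [hM]
      rw [Units.val_mul, Units.val_inv_eq_inv_val, hx', Units.val_mk0, hl, hp]
      push_cast
      field_simp
      ring
    have e2 : (a p : L) ^ 2 = 1 := by
      rcases habs p hp with h | h <;> rw [h] <;> norm_num
    unfold OU
    have e3 : (M p : L) ^ 2 - 1 = (g p : L) * x⁻¹ * (((2 * a p : ℤ) : L) + (g p : L) * x⁻¹) := by
      rw [e]
      push_cast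
      linear_combination e2
    rw [e3, map_mul]
    refine mul_lt_one_of_lt_of_le (hvi _) ?_
    exact (v.map_add _ _).trans (max_le (val_int_le v _) (hvi _).le)
  refine ⟨fun p => sy (M p) x' - sy (M p) (bu p), fun p q hpq => ?_⟩
  -- reduction
  suffices hT : sy (M p) (M q) - sy (M p) (d p q) + sy (M q) (d p q) + sy (M p) (bu p) -
      sy (M q) (bu q) ∈ unitPart v 2 by
    have h4 : l p * (l q)⁻¹ = M p * (M q)⁻¹ := by
      rw [hlM p, hlM q, mul_inv]
      rw [mul_comm x' (M p), mul_assoc, mul_inv_cancel_left]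
    have h6 : sy (l p) (l q) = sy x' (M q) + sy (M p) x' + sy (M p) (M q) := by
      rw [hlM p, hlM q]
      exact sy_gen _ _ _
    have e : sy (l p) (l q) - sy (l p * (l q)⁻¹) (d p q) -
        (sy (M p) x' - sy (M p) (bu p) - (sy (M q) x' - sy (M q) (bu q))) =
        sy (M p) (M q) - sy (M p) (d p q) + sy (M q) (d p q) + sy (M p) (bu p) -
          sy (M q) (bu q) := by
      have h7 : sy (M p * (M q)⁻¹) (d p q) = sy (M p) (d p q) - sy (M q) (d p q) := by
        rw [sy_mul_left, sy_inv_left]
        abel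
      rw [h4, h6, h7, sy_swap x' (M q)]
      abel
    rw [e]
    exact hT
  have hddL : ((dd a b p q : ℤ) : L) ≠ 0 := by exact_mod_cast hpq
  by_cases hq0 : b q = 0
  · -- `q` vertical
    have hp0 : b p ≠ 0 := by
      intro h
      apply hpq
      unfold dd
      rw [h, hq0]
      ring
    have mq : ∀ s, sy (M q) s ∈ unitPart v 2 := fun s => sy_mem_left two_ne_zero (hvert q hq0) s
    have mq' : ∀ s, sy s (M q) ∈ unitPart v 2 := fun s => sy_mem_right two_ne_zero (hvert q hq0) s
    have hdb : sy (M p) (d p q) = sy (M p) (bu p) := by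
      apply sy_pm
      rw [hbu0 p hp0]
      have e : ((dd a b p q : ℤ) : L) = -((a q : L) * (b p : L)) := by
        unfold dd
        rw [hq0]
        push_cast
        ring
      have h1 := hd p q hpq
      rw [e] at h1
      rcases habs q hq0 with h | h <;> rw [h] at h1 <;> push_cast at h1 <;>
        rcases h1 with h1 | h1 <;> rw [h1]
      · right; ring
      · left; ring
      · left; ring
      · right; ring
    rw [hdb]
    have e : sy (M p) (M q) - sy (M p) (bu p) + sy (M q) (d p q) + sy (M p) (bu p) -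
        sy (M q) (bu q) = sy (M p) (M q) + sy (M q) (d p q) - sy (M q) (bu q) := by abel
    rw [e]
    exact Submodule.sub_mem _ (Submodule.add_mem _ (mq' _) (mq _)) (mq _)
  by_cases hp0 : b p = 0
  · -- `p` vertical
    have mp : ∀ s, sy (M p) s ∈ unitPart v 2 := fun s => sy_mem_left two_ne_zero (hvert p hp0) s
    have hdb : sy (M q) (d p q) = sy (M q) (bu q) := by
      apply sy_pm
      rw [hbu0 q hq0]
      have e : ((dd a b p q : ℤ) : L) = (a p : L) * (b q : L) := by
        unfold dd
        rw [hp0]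
        push_cast
        ring
      have h1 := hd p q hpq
      rw [e] at h1
      rcases habs p hp0 with h | h <;> rw [h] at h1 <;> push_cast at h1 <;>
        rcases h1 with h1 | h1 <;> rw [h1]
      · left; ring
      · right; ring
      · right; ring
      · left; ring
    rw [hdb]
    have e : sy (M p) (M q) - sy (M p) (d p q) + sy (M q) (bu q) + sy (M p) (bu p) -
        sy (M q) (bu q) = sy (M p) (M q) - sy (M p) (d p q) + sy (M p) (bu p) := by abel
    rw [e]
    exact Submodule.add_mem _ (Submodule.sub_mem _ (mp _) (mp _)) (mp _)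
  -- the general case
  have hw : v (-((X p q : L) * x⁻¹)) < 1 := by
    rw [Valuation.map_neg]
    exact hvi _
  have hw0 : 1 - (X p q : L) * x⁻¹ ≠ 0 := by
    intro h
    have h1 : (X p q : L) * x⁻¹ = 1 := (sub_eq_zero.1 h).symm
    rw [h1, Valuation.map_neg, map_one] at hw
    exact lt_irrefl _ hw
  set W : Lˣ := Units.mk0 _ hw0 with hW
  have hWOU : OU v ((W : L) ^ 1) := by
    unfold OU
    rw [pow_one, hW, Units.val_mk0]
    have e : 1 - (X p q : L) * x⁻¹ - 1 = -((X p q : L) * x⁻¹) := by ring
    rw [e]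
    exact hw
  set e : Lˣ := Units.mk0 ((dd a b p q : ℤ) : L) hddL with he
  have hed : ∀ s, sy s e = sy s (d p q) := by
    intro s
    apply sy_pm
    rw [he, Units.val_mk0]
    rcases hd p q hpq with h | h
    · left
      exact h.symm
    · right
      rw [h]
      ring
  have hz : ((e * W : Lˣ) : L) = 1 * ((bu q * M p : Lˣ) : L) + (-1) * ((bu p * M q : Lˣ) : L) := by
    have h1 := hX p q hpq
    have h1' : (g p : L) * (b q : L) - (g q : L) * (b p : L) =
        -(((dd a b p q : ℤ) : L) * (X p q : L)) := by exact_mod_cast congrArg (Int.cast (R := L)) h1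
    have h2 : ((dd a b p q : ℤ) : L) = (a p : L) * (b q : L) - (a q : L) * (b p : L) := by
      unfold dd
      push_cast
      ring
    have hev : (e : L) = ((dd a b p q : ℤ) : L) := rfl
    have hWv : (W : L) = 1 - (X p q : L) * x⁻¹ := rfl
    have hMv : ∀ r, (M r : L) = ((a r : L) * x + (b r : L) * y + (g r : L)) * x⁻¹ := by
      intro r
      rw [← hl]
      simp only [hM]
      rw [Units.val_mul, Units.val_inv_eq_inv_val]
      rfl
    have m1 : ((e * W : Lˣ) : L) = (e : L) * (W : L) := Units.val_mul _ _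
    have m2 : ((bu q * M p : Lˣ) : L) = (bu q : L) * (M p : L) := Units.val_mul _ _
    have m3 : ((bu p * M q : Lˣ) : L) = (bu p : L) * (M q : L) := Units.val_mul _ _
    rw [m1, m2, m3, hev, hWv, hMv, hMv, hbu0 p hp0, hbu0 q hq0]
    field_simp
    linear_combination x * h2 - h1'
  have htri : sy (bu q * M p) (bu p * M q) =
      sy (bu q * M p) (e * W) - sy (bu p * M q) (e * W) :=
    tri (Or.inr ⟨1, one_ne_zero, by norm_num⟩) (Or.inr ⟨2, two_ne_zero, by norm_num⟩) hz
  have hcst : ∀ (s t : Lˣ) (m n : ℤ), (s : L) = (m : L) → (t : L) = (n : L) →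
      sy s t ∈ unitPart v 2 := fun s t m n hs ht => cst_mem v hs ht
  have mW : ∀ s, sy s W ∈ unitPart v 2 := fun s => sy_mem_right one_ne_zero hWOU s
  have eT : sy (M p) (M q) - sy (M p) (d p q) + sy (M q) (d p q) + sy (M p) (bu p) -
      sy (M q) (bu q) = sy (bu q) e - sy (bu p) e - sy (bu q) (bu p) +
        (sy (bu q) W + sy (M p) W - sy (bu p) W - sy (M q) W) := by
    rw [← hed, ← hed]
    simp only [sy_mul_left, sy_mul_right] at htri
    rw [sy_swap (bu q) (M q)] at htri
    have h3 : sy (M p) (M q) = sy (bu q) e + sy (bu q) W + (sy (M p) e + sy (M p) W) -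
        (sy (bu p) e + sy (bu p) W + (sy (M q) e + sy (M q) W)) - sy (bu q) (bu p) -
        -sy (M q) (bu q) - sy (M p) (bu p) := by
      have h4 := htri
      have h5 : ∀ A B C E R : KQ L 2, A + B + (C + E) = R → E = R - A - B - C := by
        intro A B C E R h
        rw [← h]
        abel
      first
      | exact h5 _ _ _ _ _ h4
      | (rw [← sub_eq_zero] at h4 ⊢
         rw [← h4]
         abel)
    rw [h3]
    abel
  rw [eT]
  refine Submodule.add_mem _ (Submodule.sub_mem _ (Submodule.sub_mem _ ?_ ?_) ?_)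
    (Submodule.sub_mem _ (Submodule.sub_mem _ (Submodule.add_mem _ (mW _) (mW _)) (mW _)) (mW _))
  · exact hcst _ _ _ _ (hbu0 q hq0) rfl
  · exact hcst _ _ _ _ (hbu0 p hp0) rfl
  · exact hcst _ _ _ _ (hbu0 q hq0) (hbu0 p hp0)

theorem ratio_OU {π : ℕ} (hp : π.Prime) (hv : v (π : L) < 1) {β β' : ℤ} (hβ : v (β : L) = 1)
    {l l' : L} (h1 : v l = 1) (h2 : v l' = 1) (h : v ((β' : L) * l - (β : L) * l') < 1) :
    OU v ((l * l'⁻¹) ^ (π - 1)) := by
  have h3 : v ((β : L) * l') = 1 := by rw [map_mul, hβ, h2, mul_one]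
  have hβ' : v (β' : L) = 1 := by
    have h4 : v ((β' : L) * l) = 1 := by
      have e : (β' : L) * l = (β : L) * l' + ((β' : L) * l - (β : L) * l') := by ring
      rw [e, Valuation.map_add_eq_of_lt_left v (by rw [h3]; exact h), h3]
    rwa [map_mul, h1, mul_one] at h4
  have n1 : (β : L) ≠ 0 := by
    intro h0
    rw [h0, map_zero] at hβ
    exact zero_ne_one hβ
  have n2 : (β' : L) ≠ 0 := by
    intro h0
    rw [h0, map_zero] at hβ'
    exact zero_ne_one hβ'
  have n3 : l' ≠ 0 := by
    intro h0
    rw [h0, map_zero] at h2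
    exact zero_ne_one h2
  have hr : OU v ((β' : L) * l * ((β : L) * l')⁻¹) := by
    unfold OU
    have e : (β' : L) * l * ((β : L) * l')⁻¹ - 1 =
        ((β' : L) * l - (β : L) * l') * ((β : L) * l')⁻¹ := by
      field_simp
    rw [e, map_mul, map_inv₀, h3, inv_one, mul_one]
    exact h
  have e : (l * l'⁻¹) ^ (π - 1) = ((β' : L) * l * ((β : L) * l')⁻¹) ^ (π - 1) *
      (((β : L) ^ (π - 1)) * ((β' : L) ^ (π - 1))⁻¹) := by
    rw [← inv_pow, ← mul_pow, ← mul_pow]
    congr 1
    field_simp
  rw [e]
  exact (hr.pow _).mul ((OU_pow hp hv hβ).mul (OU_pow hp hv hβ').inv)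

/-- the differences of the values -/
theorem exists_g [CharZero L] {a b g : Fin N → ℤ} {lm : ℤ}
    (hprim : ∀ p, ∃ u w : ℤ, a p * u + b p * w = 1) (X Y : Fin N → Fin N → ℤ)
    (hnode : ∀ p q, dd a b p q ≠ 0 → a p * X p q + b p * Y p q + g p = 0 ∧
      a q * X p q + b q * Y p q + g q = 0)
    (x y : L) (l : Fin N → Lˣ) (hl : ∀ p, (l p : L) = a p * x + b p * y + g p)
    (hprod : (lm : L) * ∏ p, (l p : L) = 1) (d : Fin N → Fin N → Lˣ)
    (hd : ∀ p q, dd a b p q ≠ 0 → (d p q : L) = (dd a b p q : ℤ)) :
    ∃ gg : Fin N → KQ L 2, ∀ p q, dd a b p q ≠ 0 →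
      (sy (l p) (l q) - sy (l p * (l q)⁻¹) (d p q)) - (gg p - gg q) ∈ unitPart v 2 := by
  classical
  by_cases hI : v x ≤ 1 ∧ v y ≤ 1
  · -- the integral points
    have hle : ∀ p, v (l p : L) ≤ 1 := fun p => by
      rw [hl]
      refine (v.map_add _ _).trans (max_le ((v.map_add _ _).trans (max_le ?_ ?_)) (val_int_le v _))
      · rw [map_mul]
        exact mul_le_one' (val_int_le v _) hI.1
      · rw [map_mul]
        exact mul_le_one' (val_int_le v _) hI.2
    have hone : ∀ p, v (l p : L) = 1 := by
      intro p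
      refine le_antisymm (hle p) ?_
      have h1 := congrArg v hprod
      rw [map_one, map_mul, map_prod, ← Finset.mul_prod_erase _ _ (Finset.mem_univ p)] at h1
      rw [← h1]
      calc v (lm : L) * (v (l p : L) * ∏ q ∈ Finset.univ.erase p, v (l q : L))
          ≤ 1 * (v (l p : L) * 1) := by
            refine mul_le_mul' (val_int_le v lm) (mul_le_mul' le_rfl ?_)
            exact Finset.prod_le_one' fun q _ => hle q
        _ = v (l p : L) := by rw [one_mul, mul_one]
    refine ⟨fun _ => 0, fun p q hpq => ?_⟩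
    rw [sub_zero, sub_zero]
    refine Submodule.sub_mem _ (sy_mem_unit (hone p) (hone q)) ?_
    have hquot : ((l p * (l q)⁻¹ : Lˣ) : L) = (l p : L) * (l q : L)⁻¹ := by
      rw [Units.val_mul, Units.val_inv_eq_inv_val]
    rcases (val_int_le v (dd a b p q)).lt_or_eq with h | h
    · obtain ⟨π, hp, hv⟩ := exists_prime' hpq h
      refine sy_mem_left (sub_one_ne hp) ?_ _
      rw [hquot]
      obtain ⟨n1, n2⟩ := hnode p q hpq
      have n1' : (a p : L) * (X p q : L) + (b p : L) * (Y p q : L) + (g p : L) = 0 := by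
        exact_mod_cast congrArg (Int.cast (R := L)) n1
      have n2' : (a q : L) * (X p q : L) + (b q : L) * (Y p q : L) + (g q : L) = 0 := by
        exact_mod_cast congrArg (Int.cast (R := L)) n2
      have hdd : ((dd a b p q : ℤ) : L) = (a p : L) * (b q : L) - (a q : L) * (b p : L) := by
        unfold dd
        push_cast
        ring
      have hor : v (a p : L) = 1 ∨ v (b p : L) = 1 := by
        by_contra hcon
        push Not at hcon
        have c1 : v (a p : L) < 1 := lt_of_le_of_ne (val_int_le v _) hcon.1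
        have c2 : v (b p : L) < 1 := lt_of_le_of_ne (val_int_le v _) hcon.2
        obtain ⟨u, w, huw⟩ := hprim p
        have h3 : (a p : L) * (u : L) + (b p : L) * (w : L) = 1 := by
          exact_mod_cast congrArg (Int.cast (R := L)) huw
        have h4 : v ((a p : L) * (u : L) + (b p : L) * (w : L)) < 1 := by
          refine (v.map_add _ _).trans_lt (max_lt ?_ ?_)
          · rw [map_mul]
            exact mul_lt_one_of_lt_of_le c1 (val_int_le v u)
          · rw [map_mul]
            exact mul_lt_one_of_lt_of_le c2 (val_int_le v w)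
        rw [h3, map_one] at h4
        exact lt_irrefl _ h4
      rcases hor with h3 | h3
      · refine ratio_OU hp hv h3 (β' := a q) (hone p) (hone q) ?_
        have e : (a q : L) * (l p : L) - (a p : L) * (l q : L) =
            ((dd a b p q : ℤ) : L) * ((Y p q : L) - y) := by
          rw [hl, hl, hdd]
          linear_combination (a q : L) * n1' - (a p : L) * n2'
        rw [e, map_mul]
        refine mul_lt_one_of_lt_of_le h ?_
        exact (v.map_sub _ _).trans (max_le (val_int_le v _) hI.2)
      · refine ratio_OU hp hv h3 (β' := b q) (hone p) (hone q) ?_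
        have e : (b q : L) * (l p : L) - (b p : L) * (l q : L) =
            ((dd a b p q : ℤ) : L) * (x - (X p q : L)) := by
          rw [hl, hl, hdd]
          linear_combination (b q : L) * n1' - (b p : L) * n2'
        rw [e, map_mul]
        refine mul_lt_one_of_lt_of_le h ?_
        exact (v.map_sub _ _).trans (max_le hI.1 (val_int_le v _))
    · refine sy_mem_unit ?_ ?_
      · rw [hquot, map_mul, map_inv₀, hone p, hone q, inv_one, mul_one]
      · rw [hd p q hpq]
        exact h
  · by_cases hyx : v y ≤ v x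
    · have hx : 1 < v x := by
        by_contra h
        push Not at h
        exact hI ⟨h, hyx.trans h⟩
      refine inf_case hprim X (fun p q hpq => ?_) x y hx hyx l hl d fun p q hpq =>
        Or.inl (hd p q hpq)
      obtain ⟨n1, n2⟩ := hnode p q hpq
      unfold dd
      linear_combination (b q) * n1 - (b p) * n2
    · push Not at hyx
      have hy : 1 < v y := by
        by_contra h
        push Not at h
        exact hI ⟨hyx.le.trans h, h⟩
      have hdd : ∀ p q, dd b a p q = -dd a b p q := by
        intro p q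
        unfold dd
        ring
      have q1 : ∀ p, ∃ u w : ℤ, b p * u + a p * w = 1 := by
        intro p
        obtain ⟨u, w, h⟩ := hprim p
        exact ⟨w, u, by linear_combination h⟩
      have q2 : ∀ p q, dd b a p q ≠ 0 → g p * a q - g q * a p = -(dd b a p q * Y p q) := by
        intro p q hpq
        rw [hdd] at hpq
        obtain ⟨n1, n2⟩ := hnode p q (neg_ne_zero.1 hpq)
        unfold dd
        linear_combination (a q) * n1 - (a p) * n2
      have q3 : ∀ p, (l p : L) = b p * y + a p * x + g p := by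
        intro p
        rw [hl]
        ring
      have q4 : ∀ p q, dd b a p q ≠ 0 → (d p q : L) = (dd b a p q : ℤ) ∨
          (d p q : L) = -(dd b a p q : ℤ) := by
        intro p q hpq
        rw [hdd] at hpq
        right
        rw [hd p q (neg_ne_zero.1 hpq), hdd]
        push_cast
        ring
      obtain ⟨gg, hgg⟩ := inf_case (v := v) q1 Y q2 y x hy hyx.le l q3 d q4
      refine ⟨gg, fun p q hpq => hgg p q ?_⟩
      rw [hdd]
      exact neg_ne_zero.2 hpq

end loc

section final

/-- The elements given by the circulations are unramified. -/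
theorem unramified.{w} {N : ℕ} {D : Dat ℚ N} (hA : Arr D) : UnramifiedSymbols.{0, w} D := by
  rintro c ⟨hc1, hc2, hc3⟩ L _ f
  rw [map_sum]
  simp only [map_sum, map_smul]
  unfold Unramified
  simp only [Submodule.mem_iInf]
  intro v _
  set k : ℚ →+* L := f.comp (D.fn.comp MvPolynomial.C) with hk
  have hch : CharZero L := charZero_of_injective_ringHom k.injective
  set x : L := f (D.fn (MvPolynomial.X 0)) with hx
  set y : L := f (D.fn (MvPolynomial.X 1)) with hy
  set l : Fin N → Lˣ := fun p => Units.map (f : D.CRing →* L) (D.u p) with hl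
  set d : Fin N → Fin N → Lˣ := fun p q => Units.map (f : D.CRing →* L) (cu D p q) with hd
  choose a ha using hA.al
  choose b hb using hA.be
  choose g hg using hA.ga
  obtain ⟨lm, hlm⟩ := hA.lam
  have hkn : ∀ n : ℤ, k (n : ℚ) = (n : L) := fun n => map_intCast k n
  have hdet : ∀ p q, D.det2 p q = ((dd a b p q : ℤ) : ℚ) := by
    intro p q
    unfold Dat.det2 dd
    rw [ha, ha, hb, hb]
    push_cast
    ring
  have hdne : ∀ p q, dd a b p q ≠ 0 → D.det2 p q ≠ 0 := by
    intro p q h
    rw [hdet]
    exact_mod_cast h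
  have hsy : ∀ p q, KQ.map 2 f (bs D p q) = sy (l p) (l q) - sy (l p * (l q)⁻¹) (d p q) := by
    intro p q
    unfold bs
    rw [map_sub, KQ.map_symb, KQ.map_symb]
    unfold sy
    congr 2
    · funext i
      fin_cases i <;> rfl
    · funext i
      fin_cases i
      · exact map_mul _ _ _
      · rfl
  simp only [hsy]
  have hlv : ∀ p, (l p : L) = (a p : L) * x + (b p : L) * y + (g p : L) := by
    intro p
    have h1 : (l p : L) = f (D.fn (D.line p)) := rfl
    rw [h1, ← hkn, ← hkn, ← hkn, ← ha, ← hb, ← hg]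
    unfold Dat.line
    simp only [map_add, map_mul]
    rfl
  have hprod : (lm : L) * ∏ p, (l p : L) = 1 := by
    have h1 := congrArg f D.prod_eq
    rw [map_mul, map_prod, map_one] at h1
    rw [← hkn, ← hlm]
    exact h1
  have hdd : ∀ p q, dd a b p q ≠ 0 → (d p q : L) = ((dd a b p q : ℤ) : L) := by
    intro p q hpq
    rw [← hkn, ← hdet]
    simp only [hd]
    unfold cu
    rw [dif_neg (hdne p q hpq)]
    rfl
  have hprim : ∀ p, ∃ u w : ℤ, a p * u + b p * w = 1 := by
    intro p
    obtain ⟨u, w, h⟩ := hA.prim p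
    refine ⟨u, w, ?_⟩
    rw [ha, hb] at h
    exact_mod_cast h
  have hnode : ∀ p q, ∃ X Y : ℤ, dd a b p q ≠ 0 → a p * X + b p * Y + g p = 0 ∧
      a q * X + b q * Y + g q = 0 := by
    intro p q
    by_cases h : dd a b p q = 0
    · exact ⟨0, 0, fun h' => absurd h h'⟩
    · obtain ⟨X, Y, h1, h2⟩ := hA.node p q (hdne p q h)
      refine ⟨X, Y, fun _ => ⟨?_, ?_⟩⟩
      · rw [ha, hb, hg] at h1
        exact_mod_cast h1
      · rw [ha, hb, hg] at h2
        exact_mod_cast h2
  choose X Y hXY using hnode
  obtain ⟨gg, hgg⟩ := exists_g (v := v) hprim X Y hXY x y l hlv hprod d hdd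
  have h0 : ∑ p, ∑ q, c p q • (gg p - gg q) = 0 := by
    have e1 : ∀ p, ∑ q, c p q = 0 := by
      intro p
      have : ∑ q, c p q = ∑ q, -c q p := Finset.sum_congr rfl fun q _ => by rw [hc1]
      rw [this, Finset.sum_neg_distrib, hc3, neg_zero]
    simp only [smul_sub, Finset.sum_sub_distrib]
    rw [Finset.sum_comm (f := fun p q => c p q • gg q)]
    simp only [← Finset.sum_smul, e1, hc3, zero_smul, Finset.sum_const_zero, sub_zero]
  have h1 : ∑ p, ∑ q, c p q • (sy (l p) (l q) - sy (l p * (l q)⁻¹) (d p q)) =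
      ∑ p, ∑ q, c p q • (sy (l p) (l q) - sy (l p * (l q)⁻¹) (d p q) - (gg p - gg q)) := by
    have h2 : ∀ p q, c p q • (sy (l p) (l q) - sy (l p * (l q)⁻¹) (d p q) - (gg p - gg q)) =
        c p q • (sy (l p) (l q) - sy (l p * (l q)⁻¹) (d p q)) - c p q • (gg p - gg q) :=
      fun _ _ => smul_sub _ _ _
    simp only [h2]
    rw [Finset.sum_congr rfl fun p _ => Finset.sum_sub_distrib _ _, Finset.sum_sub_distrib, h0,
      sub_zero]
  rw [h1]
  refine Submodule.sum_mem _ fun p _ => Submodule.sum_mem _ fun q _ => ?_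
  by_cases hpq : dd a b p q = 0
  · have h2 : D.det2 p q = 0 := by
      rw [hdet, hpq, Int.cast_zero]
    rw [hc2 p q h2, zero_smul]
    exact Submodule.zero_mem _
  · exact Submodule.smul_mem _ _ (hgg p q hpq)

end final

end Pool.Agent.W5h29.IN
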