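import Pool.Agent.W5h29.IN.Smooth
import Pool.Agent.W5h29.IN.Par
import Pool.Agent.W5h29.IN.Unr
import Pool.Agent.W5h29.PC.Main
set_option autoImplicit false

/-!
The main theorem for explicit members of the family.
-/

namespace Pool.Agent.W5h29.IN

open Pool.Agent.W5h29.LA (Dat)

open Pool.Agent.W5h29.LA.Dat

open Pool.Agent.W5h29.LA.Alg (n2 n2_nonneg dc)

open Pool.Agent.W5h29.LU (one_le_abs_of_int norm_map)

open Pool.Agent.W5h29.PC (ksize ell lq)

variable {N : ℕ} {D : Dat ℚ N} {σ : ℚ →+* ℂ}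

/-- independence from positivity -/
theorem indep_of (hA : Arr D) {η : ℝ} (hη : 0 ≤ η) (hN : (N : ℝ) * η ≤ 1 / 10)
    (hK : ∀ p q, D.det2 p q ≠ 0 → 1 ≤ η ^ 2 * ((ksize D p q : ℚ) : ℝ)) {δ : ℝ}
    (hpos : ∀ c ∈ D.circ ℝ,
      δ * n2 c ≤ 2 * Real.log |((D.lam : ℚ) : ℝ)| * n2 c + 2 * BV D c)
    (hδ : 21 * (N * η) + 33 * (N * η) ^ 2 < δ) : PC.IndependentRegulators D σ := by
  intro c hc hreg
  have hl0 : σ D.lam ≠ 0 := (map_ne_zero σ).2 hA.lam0
  have hK' : ∀ p q, D.det2 p q ≠ 0 →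
      1 ≤ η ^ 2 * (‖σ D.lam‖ * ∏ a ∈ oth p q, ‖LU.Aa D σ p q a‖) := by
    intro p q hpq
    have h2 := hK p q hpq
    unfold ksize at h2
    push_cast at h2
    unfold LU.Aa
    simp only [norm_div, norm_map]
    exact h2
  have h3 := ineq' hη hN hl0 (fun p q a h1 h2 h3 => hA.gen p q a h1 h2 h3) ?_ ?_ hK' hc hreg
  · simp only [norm_map] at h3
    have h4 := hpos c hc
    have h5 := bracket (D := D) hc
    have e : ∑ p, ∑ q, ell D σ p q * c p q ^ 2 = ∑ p, ∑ q, lq D p q * c p q ^ 2 := by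
      refine Finset.sum_congr rfl fun p _ => Finset.sum_congr rfl fun q _ => ?_
      unfold ell lq
      rw [norm_map]
    rw [e, h5] at h3
    apply LU.Alg.eq_zero
    by_contra hneg
    push Not at hneg
    have hp := Real.pi_pos
    have h6 := mul_le_mul_of_nonneg_left h4 hp.le
    have h7 := mul_lt_mul_of_pos_right hδ (mul_pos hp hneg)
    nlinarith
  · intro p q a h1 h2 h3
    rw [norm_map, norm_map, D.det2_symm a q]
    have := hA.le_det3_q h1 h2
    push_cast
    rw [abs_neg]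
    exact_mod_cast this
  · intro p q a h1 h2 h3
    rw [norm_map, norm_map, D.det2_symm p a]
    have := hA.le_det3_p h1 h3
    push_cast
    rw [abs_neg]
    exact_mod_cast this

theorem lam_ge (hA : Arr D) : 1 ≤ |D.lam| := one_le_abs_of_int hA.lam hA.lam0

theorem log_lam_nonneg (hA : Arr D) : 0 ≤ Real.log |((D.lam : ℚ) : ℝ)| := by
  apply Real.log_nonneg
  have h := lam_ge hA
  exact_mod_cast h

/-- independence, the first case -/
theorem indep_two (hA : Arr D) (hN : 3 ≤ N) (hl : 2 ≤ |D.lam|)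
    (hK : ∀ p q, D.det2 p q ≠ 0 → 300 * (N : ℚ) ^ 2 ≤ ksize D p q) :
    PC.IndependentRegulators D σ := by
  have hNR : (0 : ℝ) < N := by
    have : 0 < N := by omega
    exact_mod_cast this
  have e : (N : ℝ) * (3 / (50 * (N : ℝ))) = 3 / 50 := by field_simp
  refine indep_of hA (η := 3 / (50 * (N : ℝ))) (by positivity) (by rw [e]; norm_num)
    (fun p q hd => ?_) (δ := 2 * Real.log 2) ?_ ?_
  · have h1 : 300 * (N : ℝ) ^ 2 ≤ ((ksize D p q : ℚ) : ℝ) := by exact_mod_cast hK p q hd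
    rw [div_pow, div_mul_eq_mul_div, le_div_iff₀ (by positivity)]
    nlinarith [sq_nonneg (N : ℝ)]
  · intro c hc
    have h1 := BV_nonneg hA hc
    have h2 := n2_nonneg c
    have h3 : Real.log 2 ≤ Real.log |((D.lam : ℚ) : ℝ)| :=
      Real.log_le_log (by norm_num) (by exact_mod_cast hl)
    have h4 := mul_le_mul_of_nonneg_right h3 h2
    linarith
  · rw [e]
    have := Real.log_two_gt_d9
    norm_num
    linarith

/-- independence, the case `|λ| ≥ 4` -/
theorem indep_four (hA : Arr D) (hN : 3 ≤ N) (hl : 4 ≤ |D.lam|)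
    (hK : ∀ p q, D.det2 p q ≠ 0 → 100 * (N : ℚ) ^ 2 ≤ ksize D p q) :
    PC.IndependentRegulators D σ := by
  refine indep_of hA (η := 1 / (10 * (N : ℝ))) (by positivity) (by rw [LU.mul_eta (by omega)])
    (fun p q hd => LU.eta_ok (by omega) (by exact_mod_cast hK p q hd)) (δ := 4 * Real.log 2) ?_ ?_
  · intro c hc
    have h1 := BV_nonneg hA hc
    have h2 := n2_nonneg c
    have h3 : 2 * Real.log 2 ≤ Real.log |((D.lam : ℚ) : ℝ)| := by
      have e : 2 * Real.log 2 = Real.log 4 := by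
        rw [show (4 : ℝ) = 2 ^ 2 by norm_num, Real.log_pow]
        push_cast
        ring
      rw [e]
      exact Real.log_le_log (by norm_num) (by exact_mod_cast hl)
    have h4 := mul_le_mul_of_nonneg_right h3 h2
    linarith
  · rw [LU.mul_eta (by omega)]
    have := Real.log_two_gt_d9
    norm_num
    linarith

/-- independence, the second case -/
theorem indep_far (hA : Arr D) (hN : 3 ≤ N) (hF : Far D)
    (hK : ∀ p q, D.det2 p q ≠ 0 → 6250000 * (N : ℚ) ^ 6 ≤ ksize D p q) :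
    PC.IndependentRegulators D σ := by
  have hNR : (0 : ℝ) < N := by
    have : 0 < N := by omega
    exact_mod_cast this
  have hN3 : (3 : ℝ) ≤ N := by exact_mod_cast hN
  have e : (N : ℝ) * (1 / (2500 * (N : ℝ) ^ 3)) = 1 / (2500 * (N : ℝ) ^ 2) := by
    field_simp
  have hle : 1 / (2500 * (N : ℝ) ^ 2) ≤ 1 / 10 := by
    apply one_div_le_one_div_of_le (by norm_num)
    nlinarith
  refine indep_of hA (η := 1 / (2500 * (N : ℝ) ^ 3)) (by positivity) (by rw [e]; exact hle)
    (fun p q hd => ?_) (δ := Real.log 2 / (72 * (N : ℝ) ^ 2)) ?_ ?_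
  · have h1 : 6250000 * (N : ℝ) ^ 6 ≤ ((ksize D p q : ℚ) : ℝ) := by exact_mod_cast hK p q hd
    rw [div_pow, one_pow, div_mul_eq_mul_div, one_mul, le_div_iff₀ (by positivity)]
    have h2 : (2500 * (N : ℝ) ^ 3) ^ 2 = 6250000 * (N : ℝ) ^ 6 := by ring
    linarith
  · intro c hc
    have h1 := positive hA hF (by omega) hc
    have h2 := n2_nonneg c
    have h3 := mul_nonneg (log_lam_nonneg hA) h2
    have h4 : Real.log 2 / (72 * (N : ℝ) ^ 2) * n2 c ≤ 2 * BV D c := by
      rw [div_mul_eq_mul_div, div_le_iff₀ (by positivity)]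
      linarith
    linarith
  · rw [e, lt_div_iff₀ (by positivity)]
    have h1 := Real.log_two_gt_d9
    have h2 : (21 * (1 / (2500 * (N : ℝ) ^ 2)) + 33 * (1 / (2500 * (N : ℝ) ^ 2)) ^ 2) *
        (72 * (N : ℝ) ^ 2) = 21 * 72 / 2500 + 33 * 72 / 2500 * (1 / (2500 * (N : ℝ) ^ 2)) := by
      field_simp
    rw [h2]
    have h3 : 1 / (2500 * (N : ℝ) ^ 2) ≤ 1 / 2500 := by
      apply one_div_le_one_div_of_le (by norm_num)
      nlinarith
    linarith

end Pool.Agent.W5h29.IN
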