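import Pool.Agent.W5h29.IN.Ind
set_option autoImplicit false

/-!
Positivity of the quadratic form.
-/

namespace Pool.Agent.W5h29.IN

open Pool.Agent.W5h29.LA (Dat)

open Pool.Agent.W5h29.LA.Dat

open Pool.Agent.W5h29.PC (lq RR RR_nonneg)

open Pool.Agent.W5h29.PC.Alg (Q1)

open Pool.Agent.W5h29.LU (one_le_abs_of_int two_le_abs_of_int)

open Pool.Agent.W5h29.LA.Alg (n2 n2_nonneg dc sum_dc)

variable {N : ℕ} {D : Dat ℚ N} {c : Fin N → Fin N → ℝ}

/-- the excess -/
noncomputable def WW (D : Dat ℚ N) (p q a : Fin N) : ℝ :=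
  Real.log |((D.det3 p q a : ℚ) : ℝ)| - (lq D p q + lq D q a + lq D a p)

/-- the form -/
noncomputable def BV (D : Dat ℚ N) (c : Fin N → Fin N → ℝ) : ℝ :=
  Q1 c (lq D) + 1 / 3 * ∑ p, ∑ q, ∑ a, WW D p q a * dc c p q a ^ 2

theorem diag_zero (hc : ∀ p q, c q p = -c p q) (a : Fin N) : c a a = 0 := by
  have := hc a a
  linarith

theorem dc_zero (hc : c ∈ D.circ ℝ) {p q a : Fin N}
    (h : p = q ∨ q = a ∨ a = p ∨ (D.det2 p q = 0 ∧ D.det2 q a = 0 ∧ D.det2 a p = 0)) :
    dc c p q a = 0 := by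
  obtain ⟨hc1, hc2, hc3⟩ := hc
  have hd := diag_zero hc1
  unfold dc
  rcases h with rfl | rfl | rfl | ⟨h1, h2, h3⟩
  · rw [hd, hc1 p a]
    ring
  · rw [hd, hc1 p q]
    ring
  · rw [hd, hc1 a q]
    ring
  · rw [hc2 p q h1, hc2 q a h2, hc2 a p h3]
    ring

theorem WW_nonneg (hA : Arr D) (hc : c ∈ D.circ ℝ) (p q a : Fin N) :
    0 ≤ WW D p q a * dc c p q a ^ 2 := by
  by_cases h : p = q ∨ q = a ∨ a = p ∨ (D.det2 p q = 0 ∧ D.det2 q a = 0 ∧ D.det2 a p = 0)
  · rw [dc_zero hc h]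
    simp
  · push Not at h
    obtain ⟨h1, h2, h3, h4⟩ := h
    refine mul_nonneg ?_ (sq_nonneg _)
    have h5 := hA.sum_log h1 h2 h3 (fun h5 => h4 h5.1 h5.2 (par_two hA h5.1 h5.2))
    unfold WW
    linarith

theorem Q1_nonneg (hA : Arr D) (c : Fin N → Fin N → ℝ) : 0 ≤ Q1 c (lq D) :=
  Finset.sum_nonneg fun p _ => Finset.sum_nonneg fun q _ =>
    mul_nonneg (lq_nonneg hA p q) (Finset.sum_nonneg fun _ _ => sq_nonneg _)

theorem sumW_nonneg (hA : Arr D) (hc : c ∈ D.circ ℝ) :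
    0 ≤ ∑ p, ∑ q, ∑ a, WW D p q a * dc c p q a ^ 2 :=
  Finset.sum_nonneg fun p _ => Finset.sum_nonneg fun q _ => Finset.sum_nonneg fun a _ =>
    WW_nonneg hA hc p q a

theorem BV_nonneg (hA : Arr D) (hc : c ∈ D.circ ℝ) : 0 ≤ BV D c := by
  have h1 := Q1_nonneg hA c
  have h2 := sumW_nonneg hA hc
  unfold BV
  linarith

theorem Q1_le (hA : Arr D) (hc : c ∈ D.circ ℝ) : Q1 c (lq D) ≤ BV D c := by
  have h2 := sumW_nonneg hA hc
  unfold BV
  linarith

theorem W_le (hA : Arr D) (hc : c ∈ D.circ ℝ) (p q a : Fin N) :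
    WW D p q a * dc c p q a ^ 2 ≤ 3 * BV D c := by
  have h1 : WW D p q a * dc c p q a ^ 2 ≤ ∑ p, ∑ q, ∑ a, WW D p q a * dc c p q a ^ 2 := by
    have e1 : WW D p q a * dc c p q a ^ 2 ≤ ∑ a, WW D p q a * dc c p q a ^ 2 :=
      Finset.single_le_sum (f := fun a => WW D p q a * dc c p q a ^ 2)
        (fun a _ => WW_nonneg hA hc p q a) (Finset.mem_univ a)
    have e2 : ∑ a, WW D p q a * dc c p q a ^ 2 ≤ ∑ q, ∑ a, WW D p q a * dc c p q a ^ 2 :=
      Finset.single_le_sum (f := fun q => ∑ a, WW D p q a * dc c p q a ^ 2)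
        (fun q _ => Finset.sum_nonneg fun a _ => WW_nonneg hA hc p q a) (Finset.mem_univ q)
    have e3 : ∑ q, ∑ a, WW D p q a * dc c p q a ^ 2 ≤
        ∑ p, ∑ q, ∑ a, WW D p q a * dc c p q a ^ 2 :=
      Finset.single_le_sum (f := fun p => ∑ q, ∑ a, WW D p q a * dc c p q a ^ 2)
        (fun p _ => Finset.sum_nonneg fun q _ => Finset.sum_nonneg fun a _ =>
          WW_nonneg hA hc p q a) (Finset.mem_univ p)
    exact e1.trans (e2.trans e3)
  have h2 := Q1_nonneg hA c
  unfold BV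
  linarith

/-- the bracket -/
theorem bracket (hc : c ∈ D.circ ℝ) :
    ∑ p, ∑ q, ∑ a, Real.log |((D.det3 p q a : ℚ) : ℝ)| * dc c p q a ^ 2 =
      3 * (BV D c + N * ∑ p, ∑ q, lq D p q * c p q ^ 2) := by
  obtain ⟨hc1, hc2, hc3⟩ := hc
  have h1 := PC.Alg.weighted c hc1 hc3 (lq D)
  have h2 : ∑ p, ∑ q, ∑ a, Real.log |((D.det3 p q a : ℚ) : ℝ)| * dc c p q a ^ 2 =
      ∑ p, ∑ q, ∑ a, WW D p q a * dc c p q a ^ 2 +
        ∑ p, ∑ q, ∑ a, (lq D p q + lq D q a + lq D a p) * dc c p q a ^ 2 := by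
    simp only [← Finset.sum_add_distrib]
    refine Finset.sum_congr rfl fun p _ => Finset.sum_congr rfl fun q _ =>
      Finset.sum_congr rfl fun a _ => ?_
    unfold WW
    ring
  rw [h2, h1]
  unfold BV
  ring

/-- one term of the form -/
theorem far_le (hA : Arr D) (c : Fin N → Fin N → ℝ) {p q : Fin N} (h : 2 ≤ |D.det2 p q|) :
    Real.log 2 * RR c p q ≤ Q1 c (lq D) := by
  have h1 : lq D p q * RR c p q ≤ Q1 c (lq D) := by
    have h2 : lq D p q * RR c p q ≤ ∑ q, lq D p q * RR c p q :=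
      Finset.single_le_sum (f := fun q => lq D p q * RR c p q)
        (fun q _ => mul_nonneg (lq_nonneg hA p q) (RR_nonneg c p q)) (Finset.mem_univ q)
    have h3 : ∑ q, lq D p q * RR c p q ≤ Q1 c (lq D) :=
      Finset.single_le_sum (f := fun p => ∑ q, lq D p q * RR c p q)
        (fun p _ => Finset.sum_nonneg fun q _ =>
          mul_nonneg (lq_nonneg hA p q) (RR_nonneg c p q)) (Finset.mem_univ p)
    exact h2.trans h3
  have h2 : Real.log 2 ≤ lq D p q := by
    unfold lq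
    apply Real.log_le_log (by norm_num)
    exact_mod_cast h
  exact (mul_le_mul_of_nonneg_right h2 (RR_nonneg c p q)).trans h1

theorem far_dc (hA : Arr D) (hc : c ∈ D.circ ℝ) {p q a : Fin N} (h : 2 ≤ |D.det2 p q|)
    (h1 : a ≠ p) : Real.log 2 * dc c p q a ^ 2 ≤ 3 * BV D c := by
  have hc' := hc
  obtain ⟨hc1, hc2, hc3⟩ := hc'
  have h2 := far_le hA c h
  have h3 := Q1_le hA hc
  have hlog : 0 < Real.log 2 := Real.log_pos (by norm_num)
  have h4 : dc c p q a ^ 2 ≤ 2 * RR c p q := by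
    have e1 : (c q p - c p p) ^ 2 + (c q a - c p a) ^ 2 ≤ RR c p q := by
      unfold RR
      rw [← Finset.add_sum_erase _ _ (Finset.mem_univ p)]
      have e2 : (c q a - c p a) ^ 2 ≤ ∑ x ∈ Finset.univ.erase p, (c q x - c p x) ^ 2 :=
        Finset.single_le_sum (f := fun x => (c q x - c p x) ^ 2) (fun x _ => sq_nonneg _)
          (Finset.mem_erase.2 ⟨h1, Finset.mem_univ a⟩)
      linarith
    have e2 : dc c p q a = c p q + (c q a - c p a) := by
      unfold dc
      rw [hc1 p a]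
      ring
    rw [diag_zero hc1, hc1 p q] at e1
    rw [e2]
    nlinarith [sq_nonneg (c p q - (c q a - c p a))]
  have h5 := mul_le_mul_of_nonneg_left h4 hlog.le
  have h6 := Q1_nonneg hA c
  linarith

theorem dc_cyc (c : Fin N → Fin N → ℝ) (p q a : Fin N) : dc c q a p = dc c p q a := by
  unfold dc
  ring

theorem lq_small (hA : Arr D) {p q : Fin N} (h : ¬ 2 ≤ |D.det2 p q|) : lq D p q = 0 := by
  by_cases h0 : D.det2 p q = 0
  · exact lq_zero h0
  · have h1 : |D.det2 p q| = 1 := by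
      by_contra h1
      exact h (two_le_abs_of_int (hA.det2_int p q) h0 h1)
    unfold lq
    have h2 : |((D.det2 p q : ℚ) : ℝ)| = 1 := by exact_mod_cast h1
    rw [h2, Real.log_one]

/-- the controlled triples -/
theorem ctl (hA : Arr D) (hc : c ∈ D.circ ℝ) {p q a : Fin N} (hpq : p ≠ q) (hqa : q ≠ a)
    (hap : a ≠ p) (h : 2 ≤ |D.det3 p q a|) : Real.log 2 * dc c p q a ^ 2 ≤ 3 * BV D c := by
  by_cases h1 : 2 ≤ |D.det2 p q|
  · exact far_dc hA hc h1 hap
  by_cases h2 : 2 ≤ |D.det2 q a|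
  · rw [← dc_cyc]
    exact far_dc hA hc h2 hpq
  by_cases h3 : 2 ≤ |D.det2 a p|
  · rw [← dc_cyc, ← dc_cyc]
    exact far_dc hA hc h3 hqa
  · have h4 : Real.log 2 ≤ WW D p q a := by
      unfold WW
      rw [lq_small hA h1, lq_small hA h2, lq_small hA h3, add_zero, add_zero, sub_zero]
      apply Real.log_le_log (by norm_num)
      exact_mod_cast h
    exact (mul_le_mul_of_nonneg_right h4 (sq_nonneg _)).trans (W_le hA hc p q a)

/-- the far lines -/
def Far (D : Dat ℚ N) : Prop :=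
  ∀ p q, D.det2 p q ≠ 0 → ∃ b, 4 * |D.det2 p q| ≤ |D.det3 p q b|

theorem det3_self (D : Dat ℚ N) (p q : Fin N) : D.det3 p q p = 0 := by
  unfold Dat.det3 Dat.det2
  ring

theorem det3_self' (D : Dat ℚ N) (p q : Fin N) : D.det3 p q q = 0 := by
  unfold Dat.det3 Dat.det2
  ring

/-- no two of the three lines are parallel -/
theorem np (hA : Arr D) (hF : Far D) (hc : c ∈ D.circ ℝ) {p q a : Fin N} (d1 : D.det2 p q ≠ 0)
    (d2 : D.det2 q a ≠ 0) (d3 : D.det2 a p ≠ 0) : Real.log 2 * dc c p q a ^ 2 ≤ 27 * BV D c := by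
  have hB := BV_nonneg hA hc
  have hlog : 0 < Real.log 2 := Real.log_pos (by norm_num)
  have hpq := ne_of_det2 d1
  have hqa := ne_of_det2 d2
  have hap := ne_of_det2 d3
  by_cases h : 2 ≤ |D.det3 p q a|
  · have := ctl hA hc hpq hqa hap h
    linarith
  have h1 : |D.det3 p q a| = 1 := by
    by_contra h1
    exact h (two_le_abs_of_int (hA.det3_int p q a) (hA.gen p q a d1 hap hqa.symm) h1)
  obtain ⟨b, hb⟩ := hF p q d1
  have e1 : |D.det2 p q| = 1 := by
    have g1 := hA.det2_ge d1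
    have g2 := hA.le_det3 d1 hap hqa.symm
    linarith
  have e2 : |D.det2 q a| = 1 := by
    have g1 := hA.det2_ge d2
    have g2 := hA.le_det3_q d1 hap
    linarith
  have e3 : |D.det2 a p| = 1 := by
    have g1 := hA.det2_ge d3
    have g2 := hA.le_det3_p d1 hqa.symm
    linarith
  rw [e1, mul_one] at hb
  have hbp : b ≠ p := by
    rintro rfl
    rw [det3_self, abs_zero] at hb
    linarith
  have hbq : b ≠ q := by
    rintro rfl
    rw [det3_self', abs_zero] at hb
    linarith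
  have hba : b ≠ a := by
    rintro rfl
    rw [h1] at hb
    linarith
  have k1 : 2 ≤ |D.det3 q a b| := by
    have id1 : D.det3 q a b * D.det2 p q = D.det3 p q a * D.det2 b q + D.det3 p q b * D.det2 q a := by
      unfold Dat.det3 Dat.det2
      ring
    have g1 : |D.det3 p q b * D.det2 q a| ≤ |D.det3 q a b * D.det2 p q| +
        |D.det3 p q a * D.det2 b q| := by
      have : D.det3 p q b * D.det2 q a = D.det3 q a b * D.det2 p q - D.det3 p q a * D.det2 b q := by
        rw [id1]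
        ring
      rw [this]
      exact abs_sub _ _
    rw [abs_mul, abs_mul, abs_mul, e1, e2, h1, mul_one, mul_one, one_mul] at g1
    have g2 := hA.le_det3_p (p := q) (q := a) (a := b) d2 hba
    linarith
  have k2 : 2 ≤ |D.det3 a p b| := by
    have id1 : D.det3 a p b * D.det2 p q = D.det3 p q a * D.det2 p b + D.det3 p q b * D.det2 a p := by
      unfold Dat.det3 Dat.det2
      ring
    have g1 : |D.det3 p q b * D.det2 a p| ≤ |D.det3 a p b * D.det2 p q| +
        |D.det3 p q a * D.det2 p b| := by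
      have : D.det3 p q b * D.det2 a p = D.det3 a p b * D.det2 p q - D.det3 p q a * D.det2 p b := by
        rw [id1]
        ring
      rw [this]
      exact abs_sub _ _
    rw [abs_mul, abs_mul, abs_mul, e1, e3, h1, mul_one, mul_one, one_mul] at g1
    have g2 := hA.le_det3_q (p := a) (q := p) (a := b) d3 hba
    linarith
  have l1 := ctl hA hc hpq hbq.symm hbp (by linarith)
  have l2 := ctl hA hc hqa hba.symm hbq k1
  have l3 := ctl hA hc hap hbp.symm hba k2
  have e : dc c p q a = dc c p q b + dc c q a b + dc c a p b := by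
    unfold dc
    rw [hc.1 b q, hc.1 b a, hc.1 b p]
    ring
  have hsq : dc c p q a ^ 2 ≤ 3 * (dc c p q b ^ 2 + dc c q a b ^ 2 + dc c a p b ^ 2) := by
    rw [e]
    nlinarith [sq_nonneg (dc c p q b - dc c q a b), sq_nonneg (dc c q a b - dc c a p b),
      sq_nonneg (dc c a p b - dc c p q b)]
  have := mul_le_mul_of_nonneg_left hsq hlog.le
  linarith

/-- the parallel class -/
theorem par_class (hA : Arr D) {x y : Fin N} (h : D.det2 x y = 0) :
    ∃ κ τ : ℚ, (κ = 1 ∨ κ = -1) ∧ D.al y = κ * D.al x ∧ D.be y = κ * D.be x ∧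
      D.ga y = κ * (D.ga x + τ) := by
  obtain ⟨u, w, h1⟩ := hA.prim x
  obtain ⟨u', w', h2⟩ := hA.prim y
  obtain ⟨a, ha⟩ := hA.al x
  obtain ⟨b, hb⟩ := hA.be x
  obtain ⟨a', ha'⟩ := hA.al y
  obtain ⟨b', hb'⟩ := hA.be y
  have hd : a * b' = a' * b := by
    unfold Dat.det2 at h
    rw [ha, hb, ha', hb', sub_eq_zero] at h
    exact_mod_cast h
  rw [ha, hb] at h1
  rw [ha', hb'] at h2
  have h1' : a * u + b * w = 1 := by exact_mod_cast h1
  have h2' : a' * u' + b' * w' = 1 := by exact_mod_cast h2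
  have hk : (a' * u + b' * w) * (a * u' + b * w') = 1 := by
    have e : (a' * u + b' * w) * (a * u' + b * w') = (a * u + b * w) * (a' * u' + b' * w') := by
      linear_combination (u' * w - u * w') * hd
    rw [e, h1', h2']
    ring
  have hka : a' = (a' * u + b' * w) * a := by
    linear_combination (-a') * h1' - w * hd
  have hkb : b' = (a' * u + b' * w) * b := by
    linear_combination (-b') * h1' + u * hd
  rcases Int.eq_one_or_neg_one_of_mul_eq_one hk with h3 | h3
  · rw [h3] at hka hkb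
    refine ⟨1, D.ga y - D.ga x, Or.inl rfl, ?_, ?_, by ring⟩
    · rw [ha, ha', hka]
      push_cast
      ring
    · rw [hb, hb', hkb]
      push_cast
      ring
  · rw [h3] at hka hkb
    refine ⟨-1, -D.ga y - D.ga x, Or.inr rfl, ?_, ?_, by ring⟩
    · rw [ha, ha', hka]
      push_cast
      ring
    · rw [hb, hb', hkb]
      push_cast
      ring

end Pool.Agent.W5h29.IN
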